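import Pool.Agent.R550.RD.Stm

/-!
# RD-COMP: completeness of the algorithm
-/

namespace Pool.Agent.R550.RD

open Pool.Agent.H633R2 Pool.Agent.NPC

namespace CompAux

lemma wi_self (M : List (List Bool)) (t i : ℕ) : wi M t i i = true := by
  cases t <;> simp [wi]

lemma iso_iff (M : List (List Bool)) (v : ℕ) :
    iso M v = true ↔ ∀ w, w < M.length → adj M v w = false := by
  simp [iso, List.all_eq_true]

lemma wi_iso {M : List (List Bool)} {v : ℕ} (h : iso M v = true) (t s : ℕ) :
    wi M t v s = true ↔ v = s := by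
  rw [iso_iff] at h
  cases t with
  | zero => simp [wi]
  | succ t =>
    simp only [wi, Bool.or_eq_true, decide_eq_true_eq, List.any_eq_true, List.mem_range,
      Bool.and_eq_true]
    constructor
    · rintro (h1 | ⟨w, hw, h2, _⟩)
      · exact h1
      · rw [h w hw] at h2; exact absurd h2 (by simp)
    · exact fun h1 => Or.inl h1

lemma inX_iff (X : List ℕ) (v : ℕ) : inX X v = true ↔ v ∈ X := by
  simp [inX]

lemma inX_false (X : List ℕ) (v : ℕ) : inX X v = false ↔ v ∉ X := by
  rw [← Bool.not_eq_true, inX_iff]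

lemma fl_iff (M : List (List Bool)) (X : List ℕ) (v : ℕ) :
    fl M X v = true ↔ v ∉ X ∧ ∃ w, w < M.length ∧ w ∉ X ∧ adj M v w = true := by
  simp only [fl, Bool.and_eq_true, Bool.not_eq_true', List.any_eq_true, List.mem_range,
    inX_false]

lemma wi_one {M : List (List Bool)} {v w : ℕ} (hw : w < M.length) (h : adj M v w = true) :
    wi M 1 v w = true := by
  simp only [wi, Bool.or_eq_true, decide_eq_true_eq, List.any_eq_true, List.mem_range,
    Bool.and_eq_true]
  exact Or.inr ⟨w, hw, h, rfl⟩

/-- vertices with the trace of an isolated vertex are isolated -/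
lemma iso_of_tr {M : List (List Bool)} {X : List ℕ} {r : ℕ} (hr : 1 ≤ r) {t w : ℕ}
    (ht : iso M t = true) (hfl : fl M X w = fl M X t)
    (hwi : ∀ y ∈ X, ∀ b ≤ r, wi M b w y = wi M b t y) : iso M w = true := by
  by_cases htX : t ∈ X
  · have h1 := hwi t htX 0 (Nat.zero_le _)
    rw [wi_self] at h1
    simp only [wi, decide_eq_true_eq] at h1
    rw [h1]; exact ht
  · have hflt : fl M X t = false := by
      rw [← Bool.not_eq_true, fl_iff]
      rintro ⟨_, u, hu, _, hadj⟩
      rw [(iso_iff M t).1 ht u hu] at hadj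
      exact absurd hadj (by simp)
    have hwX : w ∉ X := by
      intro h
      have h1 := hwi w h 0 (Nat.zero_le _)
      rw [wi_self] at h1
      have h2 := (wi_iso ht 0 w).1 h1.symm
      exact htX (h2 ▸ h)
    rw [iso_iff]
    intro u hu
    rw [← Bool.not_eq_true]
    intro hadj
    by_cases huX : u ∈ X
    · have h1 := hwi u huX 1 hr
      rw [wi_one hu hadj] at h1
      have h2 := (wi_iso ht 1 u).1 h1.symm
      exact htX (h2 ▸ huX)
    · have h1 : fl M X w = true := (fl_iff M X w).2 ⟨hwX, u, hu, huX, hadj⟩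
      rw [hfl, hflt] at h1
      exact absurd h1 (by simp)

/-- the first vertex with the trace of `v` -/
noncomputable def fi (r : ℕ) (M : List (List Bool)) (X : List ℕ) (v : ℕ) : ℕ := by
  classical
  exact Nat.find (p := fun w => tr r M X w = tr r M X v) ⟨v, rfl⟩

lemma fi_tr (r : ℕ) (M : List (List Bool)) (X : List ℕ) (v : ℕ) :
    tr r M X (fi r M X v) = tr r M X v := by
  classical
  unfold fi
  exact Nat.find_spec (p := fun w => tr r M X w = tr r M X v) ⟨v, rfl⟩

lemma fi_le (r : ℕ) (M : List (List Bool)) (X : List ℕ) (v w : ℕ)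
    (h : tr r M X w = tr r M X v) : fi r M X v ≤ w := by
  classical
  unfold fi
  exact Nat.find_min' (p := fun w => tr r M X w = tr r M X v) ⟨v, rfl⟩ h

lemma pk_iff (r : ℕ) (M : List (List Bool)) (X : List ℕ) (c v : ℕ) :
    pk r M X c v = true ↔ ∃ m, m ≤ X.length ∧ tr r M X v = blk r X c m ∧
      ∀ w, w < M.length → w < v → tr r M X w ≠ blk r X c m := by
  simp only [pk, List.any_eq_true, List.mem_range, Bool.and_eq_true, decide_eq_true_eq,
    List.all_eq_true, Bool.or_eq_true, Bool.not_eq_true', decide_eq_false_iff_not]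
  constructor
  · rintro ⟨m, hm, h1, h2⟩
    refine ⟨m, by omega, h1, fun w hw hwv => ?_⟩
    rcases h2 w hw with h3 | h3
    · exact absurd hwv h3
    · exact h3
  · rintro ⟨m, hm, h1, h2⟩
    refine ⟨m, by omega, h1, fun w hw => ?_⟩
    by_cases hwv : w < v
    · exact Or.inr (h2 w hw hwv)
    · exact Or.inl hwv

end CompAux

open CompAux

theorem comp_ok (hW : S_WI) (hT : S_TR) (hP : S_PATH) (hD : S_DIST) : S_COMP := by
  classical
  rintro r hr ⟨M, l, X⟩ hV ⟨S, hSl, hS⟩
  obtain ⟨hD1, hD2, hD3, hD4⟩ := hD
  obtain ⟨-, hT2, hT3⟩ := hT r M X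
  have hXlt : ∀ v ∈ X, v < M.length := hV.2.1
  simp only at hS hSl ⊢
  have hdom : ∀ v, v < M.length → ∃ s ∈ S, wi M r v (s : Fin M.length) = true := by
    intro v hv
    obtain ⟨s, hs, hs2⟩ := hS ⟨v, hv⟩
    exact ⟨s, hs, (hW M r ⟨v, hv⟩ s).2 hs2⟩
  rcases Nat.eq_zero_or_pos M.length with hn | hn
  · refine ⟨0, by positivity, ?_⟩
    unfold chk
    simp only [hn, List.range_zero, List.filter_nil, List.length_nil, List.all_nil, Bool.and_true,
      decide_eq_true_eq]
    exact Nat.zero_le _
  · obtain ⟨s0, hs0, -⟩ := hdom 0 hn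
    -- the key selection
    have hkey : ∀ y, y ∈ X → ∃ s ∈ S, ∀ s' ∈ S, ∀ b ≤ r, wi M b (s' : Fin M.length) y = true →
        wi M b (s : Fin M.length) y = true := by
      intro y hy
      have hyn := hXlt y hy
      obtain ⟨s1, hs1, hs1w⟩ := hdom y hyn
      have hex : ∃ t, ∃ s ∈ S, wi M t (s : Fin M.length) y = true :=
        ⟨r, s1, hs1, hD3 M y s1 r hyn s1.2 hs1w⟩
      obtain ⟨s, hs, hsw⟩ := Nat.find_spec hex
      refine ⟨s, hs, fun s' hs' b _ hb => ?_⟩
      exact hD4 M s y _ b (Nat.find_min' hex ⟨s', hs', hb⟩) s.2 hyn hsw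
    have hflag : ∃ s ∈ S, ∀ s' ∈ S, fl M X (s' : Fin M.length) = true →
        fl M X (s : Fin M.length) = true := by
      by_cases h : ∃ s ∈ S, fl M X (s : Fin M.length) = true
      · obtain ⟨s, hs, hs2⟩ := h
        exact ⟨s, hs, fun _ _ _ => hs2⟩
      · push Not at h
        exact ⟨s0, hs0, fun s' hs' h' => absurd h' (h s' hs')⟩
    have hf : ∀ m : ℕ, ∃ s : Fin M.length, s ∈ S ∧
        (∀ h : m < X.length, ∀ s' ∈ S, ∀ b ≤ r, wi M b (s' : Fin M.length) X[m] = true →
          wi M b (s : Fin M.length) X[m] = true) ∧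
        (m = X.length → ∀ s' ∈ S, fl M X (s' : Fin M.length) = true →
          fl M X (s : Fin M.length) = true) := by
      intro m
      by_cases hm : m < X.length
      · obtain ⟨s, hs, hs2⟩ := hkey X[m] (List.getElem_mem hm)
        exact ⟨s, hs, fun _ => hs2, fun h => absurd h hm.ne⟩
      · obtain ⟨s, hs, hs2⟩ := hflag
        exact ⟨s, hs, fun h => absurd h hm, fun _ => hs2⟩
    choose f hfS hfkey hffl using hf
    obtain ⟨c, hc, hcb⟩ := hT3 (fun m => (f m : ℕ))
    refine ⟨c, hc, ?_⟩
    -- description of `pk`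
    have hpk1 : ∀ m ≤ X.length, pk r M X c (fi r M X (f m)) = true := by
      intro m hm
      rw [pk_iff]
      refine ⟨m, hm, ?_, fun w _ hwv h => ?_⟩
      · rw [hcb m hm, fi_tr]
      · rw [hcb m hm] at h
        exact absurd (fi_le r M X (f m) w h) (by omega)
    have hpk2 : ∀ v, pk r M X c v = true → ∃ m ≤ X.length, v = fi r M X (f m) := by
      intro v hv
      rw [pk_iff] at hv
      obtain ⟨m, hm, h1, h2⟩ := hv
      rw [hcb m hm] at h1 h2
      refine ⟨m, hm, ?_⟩
      have h3 := fi_le r M X (f m) v h1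
      by_contra hne
      have h4 : fi r M X (f m) < v := by omega
      have h5 : fi r M X (f m) ≤ f m := fi_le r M X (f m) (f m) rfl
      exact h2 _ (lt_of_le_of_lt h5 (f m).2) h4 (fi_tr r M X (f m))
    have hfilt : ∀ m, fi r M X (f m) < M.length := fun m =>
      lt_of_le_of_lt (fi_le r M X (f m) (f m) rfl) (f m).2
    have htreq : ∀ m, fl M X (fi r M X (f m)) = fl M X (f m) ∧
        ∀ y ∈ X, ∀ t ≤ r, wi M t (fi r M X (f m)) y = wi M t (f m) y := fun m =>
      (hT2 _ _).1 (fi_tr r M X (f m))
    unfold chk
    rw [Bool.and_eq_true, decide_eq_true_eq]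
    constructor
    · -- size
      simp only
      have hnd : ((List.range M.length).filter fun v => mem r M X c v).Nodup :=
        List.Nodup.filter _ List.nodup_range
      rw [← List.toFinset_card_of_nodup hnd]
      set T : Finset ℕ := S.image (fun s : Fin M.length => (s : ℕ)) with hTdef
      have hTcard : T.card ≤ l := le_trans Finset.card_image_le hSl
      set I : Finset ℕ := T.filter (fun v => iso M v = true) with hI
      set T' : Finset ℕ := T.filter (fun v => ¬ iso M v = true) with hT'
      have hcard : I.card + T'.card = T.card :=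
        Finset.card_filter_add_card_filter_not (s := T) (fun v => iso M v = true)
      have hisoI : ∀ v, v < M.length → iso M v = true → v ∈ I := by
        intro v hv hiso
        obtain ⟨s, hs, hsw⟩ := hdom v hv
        have h1 := (wi_iso hiso r s).1 hsw
        rw [hI, Finset.mem_filter]
        exact ⟨Finset.mem_image.2 ⟨s, hs, h1.symm⟩, hiso⟩
      have hsub : ((List.range M.length).filter fun v => mem r M X c v).toFinset ⊆
          I ∪ T'.image (fi r M X) := by
        intro v hv
        rw [List.mem_toFinset, List.mem_filter, List.mem_range] at hv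
        obtain ⟨hvn, hvm⟩ := hv
        rw [mem, Bool.or_eq_true] at hvm
        rw [Finset.mem_union]
        rcases hvm with h | h
        · exact Or.inl (hisoI v hvn h)
        · obtain ⟨m, hm, rfl⟩ := hpk2 v h
          by_cases hiso : iso M (f m) = true
          · left
            exact hisoI _ hvn (iso_of_tr (by omega) hiso (htreq m).1 (htreq m).2)
          · right
            rw [Finset.mem_image]
            exact ⟨f m, Finset.mem_filter.2 ⟨Finset.mem_image.2 ⟨f m, hfS m, rfl⟩, hiso⟩, rfl⟩
      calc _ ≤ (I ∪ T'.image (fi r M X)).card := Finset.card_le_card hsub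
        _ ≤ I.card + (T'.image (fi r M X)).card := Finset.card_union_le _ _
        _ ≤ I.card + T'.card := Nat.add_le_add_left Finset.card_image_le _
        _ ≤ l := by rw [hcard]; exact hTcard
    · -- domination
      simp only
      rw [List.all_eq_true]
      intro v hv
      rw [List.mem_range] at hv
      rw [List.any_eq_true]
      have hfin : ∀ m ≤ X.length, wi M r v (fi r M X (f m)) = true →
          ∃ s ∈ List.range M.length, (mem r M X c s && wi M r v s) = true := by
        intro m hm h
        refine ⟨fi r M X (f m), List.mem_range.2 (hfilt m), ?_⟩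
        rw [Bool.and_eq_true, mem, Bool.or_eq_true]
        exact ⟨Or.inr (hpk1 m hm), h⟩
      -- KEY
      have hKEY : ∀ y ∈ X, ∃ m ≤ X.length, ∀ s ∈ S, ∀ b ≤ r,
          wi M b (s : Fin M.length) y = true → wi M b (fi r M X (f m)) y = true := by
        intro y hy
        obtain ⟨m, hm, hmy⟩ := List.getElem_of_mem hy
        refine ⟨m, hm.le, fun s hs b hb hw => ?_⟩
        rw [(htreq m).2 y hy b hb, ← hmy]
        refine hfkey m hm s hs b hb ?_
        rw [hmy]
        exact hw
      by_cases hvX : v ∈ X
      · obtain ⟨m, hm, hkm⟩ := hKEY v hvX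
        obtain ⟨s, hs, hsw⟩ := hdom v hv
        have h1 := hkm s hs r le_rfl (hD3 M v s r hv s.2 hsw)
        exact hfin m hm (hD3 M _ _ r (hfilt m) hv h1)
      · by_cases hiso : iso M v = true
        · refine ⟨v, List.mem_range.2 hv, ?_⟩
          rw [Bool.and_eq_true, mem, Bool.or_eq_true]
          exact ⟨Or.inl hiso, wi_self M r v⟩
        · obtain ⟨s, hs, hsw⟩ := hdom v hv
          have hthird : ∀ s ∈ S, fl M X v = true → fl M X (s : Fin M.length) = true →
              ∃ s ∈ List.range M.length, (mem r M X c s && wi M r v s) = true := by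
            intro s hs hfv hfs
            have h1 := hffl X.length rfl s hs hfs
            have h2 : fl M X (fi r M X (f X.length)) = true := by
              rw [(htreq X.length).1]; exact h1
            have h3 := hD1 (M, l, X) hV v _ hv (hfilt X.length) hfv h2
            exact hfin X.length le_rfl (hD4 M _ _ 3 r hr hv (hfilt X.length) h3)
          rcases hP M X r v s s.2 hv hsw with ⟨y, hyX, hyn, a, b, hab, h1, h2⟩ | h | h
          · obtain ⟨m, hm, hkm⟩ := hKEY y hyX
            have h3 := hkm s hs b (by omega) (hD3 M y s b hyn s.2 h2)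
            have h4 := hD3 M _ _ b (hfilt m) hyn h3
            have h5 := hD2 M v y _ a b hv hyn (hfilt m) h1 h4
            exact hfin m hm (hD4 M _ _ (a + b) r hab hv (hfilt m) h5)
          · -- `v = s`
            rw [iso_iff] at hiso
            push Not at hiso
            obtain ⟨w, hw, hadj⟩ := hiso
            rw [Bool.ne_false_iff] at hadj
            by_cases hwX : w ∈ X
            · obtain ⟨m, hm, hkm⟩ := hKEY w hwX
              have h1 := wi_one hw hadj
              have h2 := hkm s hs 1 (by omega) (h ▸ h1)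
              have h3 := hD3 M _ _ 1 (hfilt m) hw h2
              have h4 := hD2 M v w _ 1 1 hv hw (hfilt m) h1 h3
              exact hfin m hm (hD4 M _ _ 2 r (by omega) hv (hfilt m) h4)
            · have hfv : fl M X v = true := (fl_iff M X v).2 ⟨hvX, w, hw, hwX, hadj⟩
              exact hthird s hs hfv (h ▸ hfv)
          · exact hthird s hs h.1 h.2

end Pool.Agent.R550.RD
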