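import Pool.Agent.H633R2.CtrDefs

/-!
# `r`-Dominating Set parameterized by the size of a split modulator: definitions
-/

namespace Pool.Agent.R550.RD

open Pool.Agent.H633R2 Pool.Agent.NPC

/-- Instances `(M, l, X)`: the 0/1 matrix `M` gives the graph `graphOf M` on `Fin M.length`, `l` is
the budget, `X` the list of the vertices of the modulator. -/
abbrev Inst := List (List Bool) × ℕ × List ℕ

/-- `X` is a split modulator of `G`: the vertices outside `X` can be partitioned into a clique `K`
and an independent set `I`. -/
def IsSplitModulator {V : Type} (G : SimpleGraph V) (X : Set V) : Prop :=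
  ∃ K I : Set V, K ∪ I = Xᶜ ∧ Disjoint K I ∧ G.IsClique K ∧ G.IsIndepSet I

/-- The list `X` consists of distinct vertices of the graph and is a split modulator. -/
def Valid (x : Inst) : Prop :=
  x.2.2.Nodup ∧ (∀ v ∈ x.2.2, v < x.1.length) ∧
    IsSplitModulator (graphOf x.1) {v : Fin x.1.length | (v : ℕ) ∈ x.2.2}

/-- The parameter: the size of the modulator. -/
def par (x : Inst) : ℕ := x.2.2.length

/-- `S` is an `r`-dominating set of `G` (`edist` is the distance, `⊤` if there is no path). -/
def RDom {V : Type} (G : SimpleGraph V) (r : ℕ) (S : Set V) : Prop :=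
  ∀ v, ∃ s ∈ S, G.edist v s ≤ (r : ℕ∞)

/-- `r`-Dominating Set: is there an `r`-dominating set of size at most `l`? -/
def HasRDom (r : ℕ) (x : Inst) : Prop :=
  ∃ S : Finset (Fin x.1.length), S.card ≤ x.2.1 ∧ RDom (graphOf x.1) r (S : Set (Fin x.1.length))

/-! ## The algorithm for `r ≥ 3` -/

/-- adjacency -/
def adj (M : List (List Bool)) (i j : ℕ) : Bool :=
  !decide (i = j) && (entry M i j || entry M j i)

/-- within distance `t` -/
def wi (M : List (List Bool)) : ℕ → ℕ → ℕ → Bool
  | 0, i, j => decide (i = j)
  | t + 1, i, j => decide (i = j) || (List.range M.length).any fun w => adj M i w && wi M t w j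

/-- isolated vertex -/
def iso (M : List (List Bool)) (v : ℕ) : Bool := (List.range M.length).all fun w => !adj M v w

/-- membership in the modulator -/
def inX (X : List ℕ) (v : ℕ) : Bool := X.any fun y => decide (y = v)

/-- the flag of a vertex: it is outside `X` and has a neighbour outside `X` -/
def fl (M : List (List Bool)) (X : List ℕ) (v : ℕ) : Bool :=
  !inX X v && (List.range M.length).any fun w => !inX X w && adj M v w

/-- the list of the values `wi M t v y` for `t ≤ r` -/
def wl (M : List (List Bool)) : ℕ → ℕ → ℕ → List Bool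
  | 0, v, y => [wi M 0 v y]
  | t + 1, v, y => wi M (t + 1) v y :: wl M t v y

/-- the trace of a vertex: its flag and its (truncated) distances to the vertices in `X` -/
def tr (r : ℕ) (M : List (List Bool)) (X : List ℕ) (v : ℕ) : List Bool :=
  fl M X v :: X.flatMap fun y => wl M r v y

/-- length of a trace -/
def tl (r : ℕ) (X : List ℕ) : ℕ := X.length * (r + 1) + 1

/-- the `m`-th block of `tl r X` bits of `c` -/
def blk (r : ℕ) (X : List ℕ) (c m : ℕ) : List Bool :=
  (List.range (tl r X)).map fun b => Nat.testBit c (m * tl r X + b)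

/-- `v` is the first vertex whose trace is some block of `c` -/
def pk (r : ℕ) (M : List (List Bool)) (X : List ℕ) (c v : ℕ) : Bool :=
  (List.range (X.length + 1)).any fun m => decide (tr r M X v = blk r X c m) &&
    (List.range M.length).all fun w => !decide (w < v) || !decide (tr r M X w = blk r X c m)

/-- the set of vertices coded by `c` -/
def mem (r : ℕ) (M : List (List Bool)) (X : List ℕ) (c v : ℕ) : Bool := iso M v || pk r M X c v

/-- the set coded by `c` is an `r`-dominating set of size at most `l` -/
def chk (r : ℕ) (x : Inst) (c : ℕ) : Bool :=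
  decide (((List.range x.1.length).filter fun v => mem r x.1 x.2.2 c v).length ≤ x.2.1) &&
    (List.range x.1.length).all fun v => (List.range x.1.length).any fun s =>
      mem r x.1 x.2.2 c s && wi x.1 r v s

/-- the algorithm -/
def alg (r : ℕ) (x : Inst) (pad : List Unit) : Bool :=
  (List.range pad.length).any fun c => chk r x c

/-! ## The reduction from Dominating Set for `r = 2` -/

/-- The vertices of the new graph, as triples: `c_v = (0,0,v)`, `b_u = (1,0,u)`, `x'_j = (2,j,0)`,
`x_j = (3,j,0)`, `a_{j,v} = (4,j,v)` for `u, v < n`, `j < k`. -/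
def cd (n k i : ℕ) : ℕ × ℕ × ℕ :=
  if i < n then (0, 0, i) else if i < 2 * n then (1, 0, i - n)
  else if i < 2 * n + k then (2, i - 2 * n, 0)
  else if i < 2 * n + 2 * k then (3, i - (2 * n + k), 0)
  else (4, (i - (2 * n + 2 * k)) / n, (i - (2 * n + 2 * k)) % n)

/-- The edges of the new graph (one orientation of each): the `c_v` form a clique, `c_v` is adjacent
to `b_u` for `u ∈ N[v]` and to `a_{j,v}`; `x'_j` is adjacent to `x_j` and to all `a_{j,v}`. -/
def ed (M : List (List Bool)) (p q : ℕ × ℕ × ℕ) : Bool :=
  (decide (p.1 = 0) && decide (q.1 = 0)) ||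
  (decide (p.1 = 0) && decide (q.1 = 1) &&
    (decide (p.2.2 = q.2.2) || (entry M p.2.2 q.2.2 || entry M q.2.2 p.2.2))) ||
  (decide (p.1 = 0) && decide (q.1 = 4) && decide (p.2.2 = q.2.2)) ||
  (decide (p.1 = 2) && decide (q.1 = 3) && decide (p.2.1 = q.2.1)) ||
  (decide (p.1 = 2) && decide (q.1 = 4) && decide (p.2.1 = q.2.1))

/-- number of vertices of the new graph -/
def nv (n k : ℕ) : ℕ := 2 * n + 2 * k + k * n

/-- The new instance, for `k ≤ n`. -/
def red' (M : List (List Bool)) (k : ℕ) : Inst :=
  ((List.range (nv M.length k)).map fun i => (List.range (nv M.length k)).map fun j =>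
    ed M (cd M.length k i) (cd M.length k j), k,
    (List.range (2 * k)).map fun j => 2 * M.length + j)

/-- The reduction. -/
def red (x : List (List Bool) × ℕ) : Inst := red' x.1 (min x.2 x.1.length)

end Pool.Agent.R550.RD
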