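import Pool.Agent.R550.RD.Stm

/-!
# RD-DIST
-/

namespace Pool.Agent.R550.RD

open Pool.Agent.H633R2 Pool.Agent.NPC

namespace DistAux

lemma adj_symm (M : List (List Bool)) (i j : ℕ) : adj M i j = adj M j i := by
  unfold adj
  rw [Bool.or_comm]
  congr 2
  exact decide_eq_decide.2 eq_comm

lemma wi_zero (M : List (List Bool)) (i j : ℕ) : wi M 0 i j = true ↔ i = j := by
  simp [wi]

lemma wi_succ (M : List (List Bool)) (t i j : ℕ) : wi M (t + 1) i j = true ↔
    i = j ∨ ∃ w, w < M.length ∧ adj M i w = true ∧ wi M t w j = true := by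
  simp [wi]

lemma wi_refl (M : List (List Bool)) (t i : ℕ) : wi M t i i = true := by
  cases t with
  | zero => exact (wi_zero M i i).2 rfl
  | succ t => exact (wi_succ M t i i).2 (Or.inl rfl)

lemma wi_step (M : List (List Bool)) (s : ℕ) : ∀ t v, wi M t v s = true → wi M (t + 1) v s = true
  | 0, v, h => by
    rw [wi_zero] at h
    exact (wi_succ M 0 v s).2 (Or.inl h)
  | t + 1, v, h => by
    rw [wi_succ] at h
    rcases h with h | ⟨w, h1, h2, h3⟩
    · exact (wi_succ M _ v s).2 (Or.inl h)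
    · exact (wi_succ M _ v s).2 (Or.inr ⟨w, h1, h2, wi_step M s t w h3⟩)

lemma wi_mono (M : List (List Bool)) (v s : ℕ) {a b : ℕ} (hab : a ≤ b) (h : wi M a v s = true) :
    wi M b v s = true := by
  induction hab with
  | refl => exact h
  | step _ ih => exact wi_step M s _ v ih

lemma wi_tri (M : List (List Bool)) (w s b : ℕ) (hb : wi M b w s = true) :
    ∀ a v, wi M a v w = true → wi M (a + b) v s = true
  | 0, v, h => by
    rw [wi_zero] at h
    rw [h, zero_add]
    exact hb
  | a + 1, v, h => by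
    rw [wi_succ] at h
    rcases h with h | ⟨u, h1, h2, h3⟩
    · rw [h]
      exact wi_mono M w s (by omega) hb
    · have e : a + 1 + b = (a + b) + 1 := by omega
      rw [e]
      exact (wi_succ M _ v s).2 (Or.inr ⟨u, h1, h2, wi_tri M w s b hb a u h3⟩)

lemma wi_adj (M : List (List Bool)) {v w : ℕ} (hw : w < M.length) (h : adj M v w = true) :
    wi M 1 v w = true :=
  (wi_succ M 0 v w).2 (Or.inr ⟨w, hw, h, wi_refl M 0 w⟩)

lemma wi_symm (M : List (List Bool)) (s : ℕ) :
    ∀ a v, v < M.length → wi M a v s = true → wi M a s v = true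
  | 0, v, _, h => by
    rw [wi_zero] at h ⊢
    exact h.symm
  | a + 1, v, hv, h => by
    rw [wi_succ] at h
    rcases h with h | ⟨w, h1, h2, h3⟩
    · rw [h]; exact wi_refl M _ s
    · have h4 := wi_symm M s a w h1 h3
      have h5 : wi M 1 w v = true := wi_adj M hv (by rw [adj_symm]; exact h2)
      exact wi_tri M w v 1 h5 a s h4

lemma adj_iff (M : List (List Bool)) {v w : ℕ} (hv : v < M.length) (hw : w < M.length) :
    adj M v w = true ↔ (graphOf M).Adj ⟨v, hv⟩ ⟨w, hw⟩ := by
  simp [adj, graphOf]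

lemma inX_iff (X : List ℕ) (v : ℕ) : inX X v = true ↔ v ∈ X := by
  simp [inX]

lemma fl_iff (M : List (List Bool)) (X : List ℕ) (v : ℕ) : fl M X v = true ↔
    v ∉ X ∧ ∃ w, w < M.length ∧ w ∉ X ∧ adj M v w = true := by
  have h : ∀ w, inX X w = false ↔ w ∉ X := by
    intro w
    rw [← inX_iff, Bool.not_eq_true]
  simp [fl, h]

end DistAux

open DistAux in
theorem dist_ok : S_DIST := by
  refine ⟨?_, ?_, ?_, ?_⟩
  · intro x hx v s hv hs fv fs
    obtain ⟨-, -, K, I, hKI, -, hK, hI⟩ := hx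
    have key : ∀ v, v < x.1.length → fl x.1 x.2.2 v = true → ∃ p : Fin x.1.length, p ∈ K ∧
        wi x.1 1 v p = true := by
      intro v hv fv
      rw [fl_iff] at fv
      obtain ⟨h1, w, hw, h2, h3⟩ := fv
      have a1 : (⟨v, hv⟩ : Fin x.1.length) ∈ K ∪ I := by
        rw [hKI]
        exact h1
      have a2 : (⟨w, hw⟩ : Fin x.1.length) ∈ K ∪ I := by
        rw [hKI]
        exact h2
      rcases a1 with a1 | a1
      · exact ⟨⟨v, hv⟩, a1, wi_refl _ _ _⟩
      · rcases a2 with a2 | a2
        · exact ⟨⟨w, hw⟩, a2, wi_adj _ hw h3⟩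
        · exfalso
          have h4 := (adj_iff x.1 hv hw).1 h3
          exact hI a1 a2 h4.ne h4
    obtain ⟨p, hp, h1⟩ := key v hv fv
    obtain ⟨q, hq, h2⟩ := key s hs fs
    have h3 : wi x.1 1 p q = true := by
      by_cases hpq : p = q
      · rw [hpq]; exact wi_refl _ _ _
      · have := hK hp hq hpq
        exact wi_adj _ q.2 ((adj_iff x.1 p.2 q.2).2 this)
    have h4 : wi x.1 1 q s = true := wi_symm _ _ 1 s hs h2
    have h5 := wi_tri _ _ _ _ h4 1 p h3
    exact wi_tri _ _ _ _ h5 1 v h1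
  · intro M v w s a b _ _ _ h1 h2
    exact wi_tri M w s b h2 a v h1
  · intro M v s a hv _ h
    exact wi_symm M s a v hv h
  · intro M v s a b hab _ _ h
    exact wi_mono M v s hab h

end Pool.Agent.R550.RD
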