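import Pool.Agent.R550.RD.Stm

/-!
# `r`-Dominating Set parameterized by the size of a split modulator: assembly
-/

namespace Pool.Agent.R550.RD

open Pool.Agent.H633R2 Pool.Agent.NPC

/-- number of candidates -/
def numc (r k : ℕ) : ℕ := 2 ^ ((k + 1) * (k * (r + 1) + 1))

theorem uf_numc (r : ℕ) : H633.UF (numc r) :=
  H633.UF.two_pow (H633.UF.mul (H633.UF.add H633.UF.id (H633.UF.const 1))
    (H633.UF.add (H633.UF.mul H633.UF.id (H633.UF.const (r + 1))) (H633.UF.const 1)))

/-- the algorithm with its padding -/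
def dec (r : ℕ) (x : Inst) : Bool := alg r x (List.replicate (numc r (par x)) ())

theorem dec_fpt (hP : S_PALG) (r : ℕ) : FptTime par (dec r) := by
  have hk : NPC.Poly par := NPC.Poly.length (NPC.Poly.snd (NPC.Poly.snd NPC.Poly.id))
  have h1 : FptTime par (fun x : Inst => List.replicate (numc r (par x)) ()) :=
    H633.UF.pad (uf_numc r) hk
  have h2 : FptTime par (fun x : Inst => x) := FptTime.of_poly NPC.Poly.id
  have h3 := FptTime.pair h2 h1
  have h4 := FptTime.poly_comp (hP r) h3
  exact h4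

theorem fpt_ok (hC : S_COMP) (hS : S_SOUND) (hP : S_PALG) : S_FPT := by
  intro r hr
  refine ⟨dec r, dec_fpt hP r, fun x hx => ?_⟩
  unfold dec alg numc
  rw [List.length_replicate, List.any_eq_true]
  constructor
  · rintro ⟨c, -, hc⟩
    exact hS r x c hc
  · intro h
    obtain ⟨c, hc, h1⟩ := hC r hr x hx h
    exact ⟨c, List.mem_range.2 hc, h1⟩

theorem dom_min (M : List (List Bool)) (k : ℕ) :
    HasDomSet (M, k) ↔ HasDomSet (M, min k M.length) := by
  constructor
  · rintro ⟨S, hS, h⟩
    refine ⟨S, ?_, h⟩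
    have := S.card_le_univ
    simp only [Fintype.card_fin] at this
    simp only at hS ⊢
    omega
  · rintro ⟨S, hS, h⟩
    refine ⟨S, ?_, h⟩
    simp only at hS ⊢
    omega

theorem red_reduces (hV : S_VAL) (hI : S_IF) (hO : S_ONLY) (hP : S_PRED) :
    FptReduces (fun x : List (List Bool) × ℕ => x.2) HasDomSet par
      (fun x => Valid x ∧ HasRDom 2 x) := by
  refine ⟨red, fun k => 2 * k, FptTime.of_poly hP,
    mul_computable (Computable.const 2) Computable.id, fun x => ⟨?_, ?_⟩⟩
  · obtain ⟨M, k⟩ := x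
    rw [dom_min]
    exact ⟨fun h => ⟨hV _ _, hI _ _ (min_le_right _ _) h⟩,
      fun h => hO _ _ (min_le_right _ _) h.2⟩
  · unfold par red red'
    simp

theorem hard_ok (hV : S_VAL) (hI : S_IF) (hO : S_ONLY) (hP : S_PRED) : S_HARD :=
  fun _ _ _ _ h => FptReduces.trans h (red_reduces hV hI hO hP)

/-- If the problem for `r = 2` has an fpt algorithm (correct on all valid instances) then W[2] = FPT. -/
theorem collapse (hV : S_VAL) (hI : S_IF) (hO : S_ONLY) (hP : S_PRED)
    (h : ∃ d : Inst → Bool, FptTime par d ∧ ∀ x, Valid x → (d x = true ↔ HasRDom 2 x)) :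
    ∀ (α : Type) [TEnc α] (κ : α → ℕ) (P : α → Prop), InW2 κ P → IsFpt κ P := by
  intro α _ κ P hW
  obtain ⟨f, g, hf, hg, h1⟩ := hW
  obtain ⟨d, hd, h2⟩ := h
  have hr : FptTime (fun x : List (List Bool) × ℕ => x.2) (fun x => d (red x)) :=
    FptTime.comp (κ' := par) hd (FptTime.of_poly hP)
      (G := fun k => 2 * k) (mul_computable (Computable.const 2) Computable.id)
      (fun x => by
        unfold par red red'
        simp)
  have hr2 : FptTime κ (fun a => d (red (f a))) :=
    FptTime.comp (κ := κ) (κ' := fun x : List (List Bool) × ℕ => x.2) (f := f)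
      (g := fun x => d (red x)) hr hf hg fun a => (h1 a).2
  refine ⟨fun a => d (red (f a)), hr2, fun a => ?_⟩
  have h4 : d (red (f a)) = true ↔ HasRDom 2 (red (f a)) := h2 _ (hV _ _)
  refine h4.trans (Iff.trans ?_ (h1 a).1.symm)
  have h3 := dom_min (f a).1 (f a).2
  exact ⟨fun h => h3.2 (hO _ _ (min_le_right _ _) h),
    fun h => hI _ _ (min_le_right _ _) (h3.1 h)⟩

end Pool.Agent.R550.RD
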