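import Pool.Agent.R550.RD.Stm

/-!
# RD-IF: a dominating set gives a 2-dominating set (by helper25)
-/

set_option autoImplicit false

namespace Pool.Agent.R550.RD

open Pool.Agent.H633R2 Pool.Agent.NPC

namespace IfAux

theorem len (M : List (List Bool)) (k : ℕ) : (red' M k).1.length = nv M.length k := by
  simp [red']

theorem entry_red (M : List (List Bool)) (k i j : ℕ) (hi : i < nv M.length k)
    (hj : j < nv M.length k) :
    entry (red' M k).1 i j = ed M (cd M.length k i) (cd M.length k j) := by
  unfold entry red'
  simp only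
  rw [List.getD_eq_getElem?_getD, List.getD_eq_getElem?_getD]
  simp [hi, hj]

theorem edist_two {V : Type} (G : SimpleGraph V) (v w s : V) (h1 : v = w ∨ G.Adj v w)
    (h2 : w = s ∨ G.Adj w s) : G.edist v s ≤ ((2 : ℕ) : ℕ∞) := by
  rcases h1 with rfl | h1
  · rcases h2 with rfl | h2
    · rw [SimpleGraph.edist_self]
      exact zero_le
    · have := (SimpleGraph.Walk.cons h2 SimpleGraph.Walk.nil).edist_le
      refine this.trans ?_
      simp
  · rcases h2 with rfl | h2
    · have := (SimpleGraph.Walk.cons h1 SimpleGraph.Walk.nil).edist_le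
      refine this.trans ?_
      simp
    · have := (SimpleGraph.Walk.cons h1 (SimpleGraph.Walk.cons h2 SimpleGraph.Walk.nil)).edist_le
      refine this.trans ?_
      simp

/-- adjacency or equality of two indices -/
def AN (M : List (List Bool)) (k i j : ℕ) : Prop :=
  i = j ∨ ed M (cd M.length k i) (cd M.length k j) = true ∨
    ed M (cd M.length k j) (cd M.length k i) = true

theorem an_step (M : List (List Bool)) (k i j : ℕ) (hi : i < (red' M k).1.length)
    (hj : j < (red' M k).1.length) (h : AN M k i j) :
    (⟨i, hi⟩ : Fin (red' M k).1.length) = ⟨j, hj⟩ ∨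
      (graphOf (red' M k).1).Adj ⟨i, hi⟩ ⟨j, hj⟩ := by
  by_cases hij : i = j
  · left
    exact Fin.ext hij
  · right
    have hi' : i < nv M.length k := by rw [← len]; exact hi
    have hj' : j < nv M.length k := by rw [← len]; exact hj
    refine ⟨fun h => hij (congrArg Fin.val h), ?_⟩
    simp only
    rw [entry_red M k i j hi' hj', entry_red M k j i hj' hi']
    rcases h with h | h
    · exact absurd h hij
    · exact h

theorem cd_a (n k j w : ℕ) (hj : j < k) (hw : w < n) :
    2 * n + 2 * k + (j * n + w) < nv n k ∧
      cd n k (2 * n + 2 * k + (j * n + w)) = (4, j, w) := by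
  have h1 : j * n + w < k * n := by
    calc j * n + w < j * n + n := by omega
      _ = (j + 1) * n := by ring
      _ ≤ k * n := Nat.mul_le_mul_right n hj
  refine ⟨by unfold nv; omega, ?_⟩
  unfold cd
  rw [if_neg (by omega), if_neg (by omega), if_neg (by omega), if_neg (by omega)]
  have e1 : 2 * n + 2 * k + (j * n + w) - (2 * n + 2 * k) = w + n * j := by
    have : n * j = j * n := Nat.mul_comm _ _
    omega
  rw [e1, Nat.add_mul_div_left _ _ (by omega), Nat.add_mul_mod_self_left,
    Nat.div_eq_of_lt hw, Nat.mod_eq_of_lt hw, Nat.zero_add]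

theorem cd_c (n k w : ℕ) (hw : w < n) : w < nv n k ∧ cd n k w = (0, 0, w) := by
  refine ⟨by unfold nv; omega, ?_⟩
  unfold cd
  rw [if_pos hw]

theorem cd_x' (n k j : ℕ) (hj : j < k) : 2 * n + j < nv n k ∧ cd n k (2 * n + j) = (2, j, 0) := by
  refine ⟨by unfold nv; omega, ?_⟩
  unfold cd
  rw [if_neg (by omega), if_neg (by omega), if_pos (by omega)]
  have : 2 * n + j - 2 * n = j := by omega
  rw [this]

end IfAux

open IfAux in
theorem if_ok (_hW : S_WI) : S_IF := by
  intro M k hk hD
  have hD' : ∃ D : Finset (Fin M.length), D.card ≤ k ∧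
      ∀ w, ∃ v ∈ D, v = w ∨ (graphOf M).Adj v w := hD
  obtain ⟨D, hDk, hDd⟩ := hD'
  rcases Nat.eq_zero_or_pos M.length with hn0 | hn0
  · refine ⟨∅, by simp, ?_⟩
    rintro ⟨v, hv⟩
    exfalso
    have h1 : v < nv M.length k := by rw [← len]; exact hv
    have hk0 : k = 0 := by omega
    rw [hn0, hk0] at h1
    unfold nv at h1
    omega
  · -- enumeration of `D`
    obtain ⟨d0, hd0, -⟩ := hDd ⟨0, hn0⟩
    have hk1 : 1 ≤ k := le_trans (Finset.card_pos.mpr ⟨d0, hd0⟩) hDk
    obtain ⟨g, hg⟩ : ∃ g : ℕ → Fin M.length, ∀ d ∈ D, ∃ j < k, g j = d := by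
      refine ⟨fun j => D.toList.getD j d0, fun d hd => ?_⟩
      rw [← Finset.mem_toList] at hd
      obtain ⟨j, hj, hjd⟩ := List.getElem_of_mem hd
      refine ⟨j, lt_of_lt_of_le hj (by rw [Finset.length_toList]; exact hDk), ?_⟩
      show D.toList.getD j d0 = d
      rw [List.getD_eq_getElem?_getD, List.getElem?_eq_getElem hj, Option.getD_some, hjd]
    have ha : ∀ j, j < k → 2 * M.length + 2 * k + (j * M.length + (g j : ℕ)) < (red' M k).1.length := by
      intro j hj
      rw [len]
      exact (cd_a M.length k j (g j) hj (g j).isLt).1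
    refine ⟨Finset.univ.image (fun j : Fin k =>
      (⟨2 * M.length + 2 * k + ((j : ℕ) * M.length + (g j : ℕ)), ha j j.isLt⟩ : Fin (red' M k).1.length)),
      ?_, ?_⟩
    · refine Finset.card_image_le.trans ?_
      rw [Finset.card_univ, Fintype.card_fin]
      exact le_rfl
    · -- it suffices to find `j` and a middle vertex
      have key : ∀ i, ∀ hi : i < (red' M k).1.length, (∃ j < k, ∃ m, m < nv M.length k ∧ AN M k i m ∧
          AN M k m (2 * M.length + 2 * k + (j * M.length + (g j : ℕ)))) →
          ∃ s ∈ ((Finset.univ.image (fun j : Fin k =>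
            (⟨2 * M.length + 2 * k + ((j : ℕ) * M.length + (g j : ℕ)), ha j j.isLt⟩ :
              Fin (red' M k).1.length)) : Finset _) : Set (Fin (red' M k).1.length)),
            (graphOf (red' M k).1).edist ⟨i, hi⟩ s ≤ ((2 : ℕ) : ℕ∞) := by
        rintro i hi ⟨j, hj, m, hm, h1, h2⟩
        have hm' : m < (red' M k).1.length := by rw [len]; exact hm
        refine ⟨⟨2 * M.length + 2 * k + (j * M.length + (g j : ℕ)), ha j hj⟩, ?_, ?_⟩
        · rw [Finset.mem_coe, Finset.mem_image]
          exact ⟨⟨j, hj⟩, Finset.mem_univ _, rfl⟩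
        · exact edist_two _ _ ⟨m, hm'⟩ _ (an_step M k i m hi hm' h1) (an_step M k m _ hm' _ h2)
      rintro ⟨i, hi⟩
      apply key i hi
      have hi' : i < nv M.length k := by rw [← len]; exact hi
      -- `c_w` and `a_{j,w}`
      have hca : ∀ j, j < k → AN M k (g j : ℕ) (2 * M.length + 2 * k + (j * M.length + (g j : ℕ))) := by
        intro j hj
        right; left
        rw [(cd_c M.length k (g j) (g j).isLt).2, (cd_a M.length k j (g j) hj (g j).isLt).2]
        simp [ed]
      have hxa : ∀ j, j < k → AN M k (2 * M.length + j) (2 * M.length + 2 * k + (j * M.length + (g j : ℕ))) := by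
        intro j hj
        right; left
        rw [(cd_x' M.length k j hj).2, (cd_a M.length k j (g j) hj (g j).isLt).2]
        simp [ed]
      by_cases c1 : i < M.length
      · refine ⟨0, hk1, (g 0 : ℕ), (cd_c M.length k (g 0) (g 0).isLt).1, ?_, hca 0 hk1⟩
        right; left
        rw [(cd_c M.length k i c1).2, (cd_c M.length k (g 0) (g 0).isLt).2]
        simp [ed]
      by_cases c2 : i < 2 * M.length
      · have hu : i - M.length < M.length := by omega
        obtain ⟨d, hd, hdu⟩ := hDd ⟨i - M.length, hu⟩
        obtain ⟨j, hj, hgj⟩ := hg d hd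
        refine ⟨j, hj, (g j : ℕ), (cd_c M.length k (g j) (g j).isLt).1, ?_, hca j hj⟩
        right; right
        have e2 : cd M.length k i = (1, 0, i - M.length) := by
          unfold cd
          rw [if_neg c1, if_pos c2]
        rw [(cd_c M.length k (g j) (g j).isLt).2, e2, hgj]
        rcases hdu with h | h
        · have h3 : (d : ℕ) = i - M.length := congrArg Fin.val h
          simp [ed, h3]
        · have h3 := h.2
          simp only at h3
          rcases h3 with h3 | h3
          · simp [ed, h3]
          · simp [ed, h3]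
      by_cases c3 : i < 2 * M.length + k
      · have hj : i - 2 * M.length < k := by omega
        refine ⟨i - 2 * M.length, hj, i, hi', Or.inl rfl, ?_⟩
        have := hxa (i - 2 * M.length) hj
        rwa [show 2 * M.length + (i - 2 * M.length) = i by omega] at this
      by_cases c4 : i < 2 * M.length + 2 * k
      · have hj : i - (2 * M.length + k) < k := by omega
        refine ⟨i - (2 * M.length + k), hj, 2 * M.length + (i - (2 * M.length + k)), (cd_x' M.length k _ hj).1, ?_,
          hxa _ hj⟩
        right; right
        have e2 : cd M.length k i = (3, i - (2 * M.length + k), 0) := by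
          unfold cd
          rw [if_neg c1, if_neg c2, if_neg c3, if_pos c4]
        rw [(cd_x' M.length k _ hj).2, e2]
        simp [ed]
      · set q := i - (2 * M.length + 2 * k) with hq
        have hqk : q < k * M.length := by
          unfold nv at hi'
          omega
        have hj : q / M.length < k := (Nat.div_lt_iff_lt_mul hn0).mpr hqk
        refine ⟨q / M.length, hj, 2 * M.length + q / M.length, (cd_x' M.length k _ hj).1, ?_, hxa _ hj⟩
        right; right
        have e2 : cd M.length k i = (4, q / M.length, q % M.length) := by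
          unfold cd
          rw [if_neg c1, if_neg c2, if_neg c3, if_neg c4]
        rw [(cd_x' M.length k _ hj).2, e2]
        simp [ed]

end Pool.Agent.R550.RD
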