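import Pool.Agent.R550.RD.Stm

namespace Pool.Agent.R550.RD

open Pool.Agent.H633R2 Pool.Agent.NPC

namespace OnlyX

lemma len (M : List (List Bool)) (k : ℕ) : (red' M k).1.length = nv M.length k := by
  simp [red']

lemma ent (M : List (List Bool)) (k i j : ℕ) (hi : i < nv M.length k) (hj : j < nv M.length k) :
    Pool.Agent.H633R2.entry (red' M k).1 i j = ed M (cd M.length k i) (cd M.length k j) := by
  simp [Pool.Agent.H633R2.entry, red', hi, hj]

/-- adjacency of the new graph -/
def A (M : List (List Bool)) (k i j : ℕ) : Prop :=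
  ed M (cd M.length k i) (cd M.length k j) = true ∨
    ed M (cd M.length k j) (cd M.length k i) = true

lemma adj_A (M : List (List Bool)) (k i j : ℕ) (hi : i < nv M.length k) (hj : j < nv M.length k)
    (h : adj (red' M k).1 i j = true) : A M k i j := by
  rw [adj, ent M k i j hi hj, ent M k j i hj hi, Bool.and_eq_true, Bool.or_eq_true] at h
  exact h.2

lemma wi2 (M : List (List Bool)) (k v s : ℕ) (hv : v < nv M.length k) (hs : s < nv M.length k)
    (h : wi (red' M k).1 2 v s = true) :
    v = s ∨ A M k v s ∨ ∃ w < nv M.length k, A M k v w ∧ A M k w s := by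
  simp only [wi, Bool.or_eq_true, decide_eq_true_eq, List.any_eq_true, List.mem_range,
    Bool.and_eq_true, len] at h
  rcases h with h | ⟨w, hw, h1, h2⟩
  · exact Or.inl h
  · rcases h2 with h2 | ⟨w', hw', h3, h4⟩
    · right; left
      rw [← h2]
      exact adj_A M k v w hv hw h1
    · right; right
      refine ⟨w, hw, adj_A M k v w hv hw h1, ?_⟩
      rw [← h4]
      exact adj_A M k w w' hw hw' h3

lemma ed_cases (M : List (List Bool)) (p q : ℕ × ℕ × ℕ) (h : ed M p q = true) :
    (p.1 = 0 ∧ q.1 = 0) ∨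
    (p.1 = 0 ∧ q.1 = 1 ∧ (p.2.2 = q.2.2 ∨ Pool.Agent.H633R2.entry M p.2.2 q.2.2 = true ∨
      Pool.Agent.H633R2.entry M q.2.2 p.2.2 = true)) ∨
    (p.1 = 0 ∧ q.1 = 4 ∧ p.2.2 = q.2.2) ∨
    (p.1 = 2 ∧ q.1 = 3 ∧ p.2.1 = q.2.1) ∨
    (p.1 = 2 ∧ q.1 = 4 ∧ p.2.1 = q.2.1) := by
  simp only [ed, Bool.or_eq_true, Bool.and_eq_true, decide_eq_true_eq] at h
  rcases h with (((h | h) | h) | h) | h
  · exact Or.inl h
  · exact Or.inr (Or.inl ⟨h.1.1, h.1.2, h.2⟩)
  · exact Or.inr (Or.inr (Or.inl ⟨h.1.1, h.1.2, h.2⟩))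
  · exact Or.inr (Or.inr (Or.inr (Or.inl ⟨h.1.1, h.1.2, h.2⟩)))
  · exact Or.inr (Or.inr (Or.inr (Or.inr ⟨h.1.1, h.1.2, h.2⟩)))

lemma nb3 (M : List (List Bool)) (k v w : ℕ) (hv : (cd M.length k v).1 = 3) (h : A M k v w) :
    (cd M.length k w).1 = 2 ∧ (cd M.length k w).2.1 = (cd M.length k v).2.1 := by
  rcases h with h | h
  · rcases ed_cases _ _ _ h with h | h | h | h | h <;> (have := h.1; omega)
  · rcases ed_cases _ _ _ h with h | h | h | h | h
    · have := h.2; omega
    · have := h.2.1; omega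
    · have := h.2.1; omega
    · exact ⟨h.1, h.2.2⟩
    · have := h.2.1; omega

lemma nb2 (M : List (List Bool)) (k v w : ℕ) (hv : (cd M.length k v).1 = 2) (h : A M k v w) :
    2 ≤ (cd M.length k w).1 ∧ (cd M.length k w).2.1 = (cd M.length k v).2.1 := by
  rcases h with h | h
  · rcases ed_cases _ _ _ h with h | h | h | h | h
    · have := h.1; omega
    · have := h.1; omega
    · have := h.1; omega
    · exact ⟨by have := h.2.1; omega, h.2.2.symm⟩
    · exact ⟨by have := h.2.1; omega, h.2.2.symm⟩
  · rcases ed_cases _ _ _ h with h | h | h | h | h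
    · have := h.2; omega
    · have := h.2.1; omega
    · have := h.2.1; omega
    · have := h.2.1; omega
    · have := h.2.1; omega

lemma nb1 (M : List (List Bool)) (k v w : ℕ) (hv : (cd M.length k v).1 = 1) (h : A M k v w) :
    (cd M.length k w).1 = 0 ∧ ((cd M.length k w).2.2 = (cd M.length k v).2.2 ∨
      Pool.Agent.H633R2.entry M (cd M.length k w).2.2 (cd M.length k v).2.2 = true ∨
      Pool.Agent.H633R2.entry M (cd M.length k v).2.2 (cd M.length k w).2.2 = true) := by
  rcases h with h | h
  · rcases ed_cases _ _ _ h with h | h | h | h | h <;> (have := h.1; omega)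
  · rcases ed_cases _ _ _ h with h | h | h | h | h
    · have := h.2; omega
    · exact ⟨h.1, h.2.2⟩
    · have := h.2.1; omega
    · have := h.2.1; omega
    · have := h.2.1; omega

lemma nb0 (M : List (List Bool)) (k v w : ℕ) (hv : (cd M.length k v).1 = 0) (h : A M k v w) :
    (cd M.length k w).1 = 0 ∨ (cd M.length k w).1 = 1 ∨
      (cd M.length k w).2.2 = (cd M.length k v).2.2 := by
  rcases h with h | h
  · rcases ed_cases _ _ _ h with h | h | h | h | h
    · exact Or.inl h.2
    · exact Or.inr (Or.inl h.2.1)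
    · exact Or.inr (Or.inr h.2.2.symm)
    · have := h.1; omega
    · have := h.1; omega
  · rcases ed_cases _ _ _ h with h | h | h | h | h
    · exact Or.inl h.1
    · exact Or.inl h.1
    · exact Or.inl h.1
    · have := h.2.1; omega
    · have := h.2.1; omega

lemma cd_b (n k u : ℕ) (hu : u < n) : cd n k (n + u) = (1, 0, u) := by
  unfold cd
  rw [if_neg (by omega), if_pos (by omega)]
  simp

lemma cd_x (n k j : ℕ) (hj : j < k) : cd n k (2 * n + k + j) = (3, j, 0) := by
  unfold cd
  rw [if_neg (by omega), if_neg (by omega), if_neg (by omega), if_pos (by omega)]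
  simp

lemma cd_0 (n k i : ℕ) (h : (cd n k i).1 = 0) : (cd n k i).2.2 < n := by
  unfold cd at h ⊢
  split_ifs at h ⊢ with h1
  exact h1

end OnlyX

open OnlyX in
theorem only_ok (hW : S_WI) : S_ONLY := by
  intro M k _ hR
  obtain ⟨S, hS, hdom⟩ := hR
  have hSk : S.card ≤ k := hS
  have hlen := len M k
  have key : ∀ v, v < nv M.length k → ∃ s ∈ S, v = (s : ℕ) ∨ A M k v s ∨
      ∃ w < nv M.length k, A M k v w ∧ A M k w s := by
    intro v hv
    obtain ⟨s, hs, hd⟩ := hdom ⟨v, by rw [hlen]; exact hv⟩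
    refine ⟨s, hs, ?_⟩
    have h1 := (hW (red' M k).1 2 ⟨v, by rw [hlen]; exact hv⟩ s).2 hd
    exact wi2 M k v s hv (by rw [← hlen]; exact s.2) h1
  have step1 : ∀ j, j < k → ∃ s ∈ S, 2 ≤ (cd M.length k s).1 ∧ (cd M.length k s).2.1 = j := by
    intro j hj
    have hc := cd_x M.length k j hj
    obtain ⟨s, hs, h⟩ := key (2 * M.length + k + j) (by unfold nv; omega)
    refine ⟨s, hs, ?_⟩
    rcases h with h | h | ⟨w, hw, h1, h2⟩
    · rw [← h, hc]
      exact ⟨by norm_num, rfl⟩
    · have := nb3 M k _ _ (by rw [hc]) h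
      rw [hc] at this
      exact ⟨by omega, this.2⟩
    · have h3 := nb3 M k _ _ (by rw [hc]) h1
      rw [hc] at h3
      have h4 := nb2 M k _ _ h3.1 h2
      exact ⟨h4.1, h4.2.trans h3.2⟩
  have step2 : ∀ s ∈ S, 2 ≤ (cd M.length k s).1 := by
    have h1 : Finset.range k ⊆ (S.filter fun s : Fin (red' M k).1.length => 2 ≤ (cd M.length k s).1).image
        (fun s : Fin (red' M k).1.length => (cd M.length k s).2.1) := by
      intro j hj
      obtain ⟨s, hs, h2, h3⟩ := step1 j (Finset.mem_range.1 hj)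
      exact Finset.mem_image.2 ⟨s, Finset.mem_filter.2 ⟨hs, h2⟩, h3⟩
    have h2 := Finset.card_le_card h1
    rw [Finset.card_range] at h2
    have h3 := h2.trans Finset.card_image_le
    have h4 : S.filter (fun s : Fin (red' M k).1.length => 2 ≤ (cd M.length k s).1) = S :=
      Finset.eq_of_subset_of_card_le (Finset.filter_subset _ _) (hSk.trans h3)
    intro s hs
    rw [← h4] at hs
    exact (Finset.mem_filter.1 hs).2
  refine ⟨Finset.univ.filter (fun x : Fin M.length => (x : ℕ) ∈
    S.image (fun s : Fin (red' M k).1.length => (cd M.length k s).2.2)), ?_, ?_⟩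
  · have h1 : (Finset.univ.filter (fun x : Fin M.length => (x : ℕ) ∈
        S.image (fun s : Fin (red' M k).1.length => (cd M.length k s).2.2))).card ≤
        (S.image (fun s : Fin (red' M k).1.length => (cd M.length k s).2.2)).card := by
      refine Finset.card_le_card_of_injOn (fun x => (x : ℕ)) ?_ ?_
      · intro x hx
        exact (Finset.mem_filter.1 (Finset.mem_coe.1 hx)).2
      · intro a _ b _ hab
        exact Fin.ext hab
    exact (h1.trans Finset.card_image_le).trans hSk
  · intro u
    have hu : (u : ℕ) < M.length := u.2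
    have hc := cd_b M.length k u hu
    obtain ⟨s, hs, h⟩ := key (M.length + u) (by unfold nv; omega)
    have hs2 := step2 s hs
    have hgoal : ∃ w : ℕ, (cd M.length k w).1 = 0 ∧
        (cd M.length k s).2.2 = (cd M.length k w).2.2 ∧
        ((cd M.length k w).2.2 = (u : ℕ) ∨
        Pool.Agent.H633R2.entry M (cd M.length k w).2.2 u = true ∨
        Pool.Agent.H633R2.entry M u (cd M.length k w).2.2 = true) := by
      rcases h with h | h | ⟨w, hw, h1, h2⟩
      · rw [← h, hc] at hs2
        exact absurd hs2 (by norm_num)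
      · have := (nb1 M k _ _ (by rw [hc]) h).1
        omega
      · have h3 := nb1 M k _ _ (by rw [hc]) h1
        rw [hc] at h3
        refine ⟨w, h3.1, ?_, h3.2⟩
        rcases nb0 M k _ _ h3.1 h2 with h4 | h4 | h4
        · omega
        · omega
        · exact h4
    obtain ⟨w, hw0, hw1, hw2⟩ := hgoal
    have hwn := cd_0 M.length k w hw0
    refine ⟨⟨(cd M.length k w).2.2, hwn⟩, ?_, ?_⟩
    · rw [Finset.mem_filter]
      refine ⟨Finset.mem_univ _, Finset.mem_image.2 ⟨s, hs, ?_⟩⟩
      exact hw1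
    · by_cases he : (⟨(cd M.length k w).2.2, hwn⟩ : Fin M.length) = u
      · exact Or.inl he
      · right
        refine ⟨he, ?_⟩
        rcases hw2 with h | h | h
        · exact absurd (Fin.ext h) he
        · exact Or.inl h
        · exact Or.inr h

end Pool.Agent.R550.RD
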