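import Pool.Agent.R550.RD.Stm

/-!
# RD-PALG: the algorithm runs in polynomial time in the size of the padded input
-/

namespace Pool.Agent.R550.RD

open Pool.Agent.H633R2 Pool.Agent.NPC

namespace PA

variable {α : Type} [TEnc α]

theorem poly_testBit {i k : α → ℕ} (hi : NPC.Poly i) (hk : NPC.Poly k) :
    NPC.Poly (fun a => (i a).testBit (k a)) := by
  refine (NPC.Poly.getD (NPC.Poly.natBits hi) hk (NPC.Poly.const false)).congr fun a => ?_
  rw [Nat.testBit_eq_inth]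
  simp [List.getI_eq_getElem?_getD, List.getD_eq_getElem?_getD]

theorem uTl (r : ℕ) {X : α → List ℕ} (hX : NPC.Poly X) : UPoly (fun a => tl r (X a)) :=
  UPoly.add (UPoly.mul (UPoly.length hX) (UPoly.const (r + 1))) (UPoly.const 1)

theorem poly_blk (r : ℕ) {X : α → List ℕ} {c m : α → ℕ} (hX : NPC.Poly X) (hc : NPC.Poly c)
    (hm : NPC.Poly m) : NPC.Poly (fun a => blk r (X a) (c a) (m a)) := by
  unfold blk
  refine NPC.Poly.map (F := fun a b => Nat.testBit (c a) (m a * tl r (X a) + b)) (uTl r hX).range ?_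
  have hf : NPC.Poly (fun p : α × ℕ => p.1) := NPC.Poly.fst NPC.Poly.id
  have hs : NPC.Poly (fun p : α × ℕ => p.2) := NPC.Poly.snd NPC.Poly.id
  exact poly_testBit (hc.comp hf) (NPC.Poly.add (NPC.Poly.mul (hm.comp hf)
    ((uTl r hX).toPoly.comp hf)) hs)

theorem poly_pk (h : S_PWI) (r : ℕ) {M : α → List (List Bool)} {X : α → List ℕ} {c v : α → ℕ}
    (hM : NPC.Poly M) (hX : NPC.Poly X) (hc : NPC.Poly c) (hv : NPC.Poly v) :
    NPC.Poly (fun a => pk r (M a) (X a) (c a) (v a)) := by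
  unfold pk
  refine NPC.Poly.any (p := fun a m => decide (tr r (M a) (X a) (v a) = blk r (X a) (c a) m) &&
    (List.range (M a).length).all fun w => !decide (w < v a) ||
      !decide (tr r (M a) (X a) w = blk r (X a) (c a) m))
    (UPoly.add (UPoly.length hX) (UPoly.const 1)).range ?_
  have hf : NPC.Poly (fun p : α × ℕ => p.1) := NPC.Poly.fst NPC.Poly.id
  have hs : NPC.Poly (fun p : α × ℕ => p.2) := NPC.Poly.snd NPC.Poly.id
  refine NPC.Poly.and (NPC.Poly.decide_eq (h.2.2 r _ _ _ _ (hM.comp hf) (hX.comp hf) (hv.comp hf))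
    (poly_blk r (hX.comp hf) (hc.comp hf) hs)) ?_
  refine NPC.Poly.all (p := fun (p : α × ℕ) w => !decide (w < v p.1) ||
      !decide (tr r (M p.1) (X p.1) w = blk r (X p.1) (c p.1) p.2))
    (UPoly.length (hM.comp hf)).range ?_
  have gf : NPC.Poly (fun q : (α × ℕ) × ℕ => q.1.1) := NPC.Poly.fst (NPC.Poly.fst NPC.Poly.id)
  have gm : NPC.Poly (fun q : (α × ℕ) × ℕ => q.1.2) := NPC.Poly.snd (NPC.Poly.fst NPC.Poly.id)
  have gw : NPC.Poly (fun q : (α × ℕ) × ℕ => q.2) := NPC.Poly.snd NPC.Poly.id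
  exact NPC.Poly.or (NPC.Poly.not (NPC.Poly.decide_lt gw (hv.comp gf)))
    (NPC.Poly.not (NPC.Poly.decide_eq (h.2.2 r _ _ _ _ (hM.comp gf) (hX.comp gf) gw)
      (poly_blk r (hX.comp gf) (hc.comp gf) gm)))

theorem poly_mem (h : S_PWI) (r : ℕ) {M : α → List (List Bool)} {X : α → List ℕ} {c v : α → ℕ}
    (hM : NPC.Poly M) (hX : NPC.Poly X) (hc : NPC.Poly c) (hv : NPC.Poly v) :
    NPC.Poly (fun a => mem r (M a) (X a) (c a) (v a)) := by
  unfold mem
  exact NPC.Poly.or (h.2.1 _ _ _ hM hv) (poly_pk h r hM hX hc hv)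

theorem poly_chk (h : S_PWI) (r : ℕ) {x : α → Inst} {c : α → ℕ} (hx : NPC.Poly x)
    (hc : NPC.Poly c) : NPC.Poly (fun a => chk r (x a) (c a)) := by
  have hM : NPC.Poly (fun a => (x a).1) := NPC.Poly.fst hx
  have hl : NPC.Poly (fun a => (x a).2.1) := NPC.Poly.fst (NPC.Poly.snd hx)
  have hX : NPC.Poly (fun a => (x a).2.2) := NPC.Poly.snd (NPC.Poly.snd hx)
  have hf : NPC.Poly (fun p : α × ℕ => p.1) := NPC.Poly.fst NPC.Poly.id
  have hs : NPC.Poly (fun p : α × ℕ => p.2) := NPC.Poly.snd NPC.Poly.id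
  unfold chk
  refine NPC.Poly.and (NPC.Poly.decide_le (NPC.Poly.length ?_) hl) ?_
  · refine NPC.Poly.filter (p := fun a v => mem r (x a).1 (x a).2.2 (c a) v)
      (UPoly.length hM).range ?_
    exact poly_mem h r (hM.comp hf) (hX.comp hf) (hc.comp hf) hs
  · refine NPC.Poly.all (p := fun a v => (List.range (x a).1.length).any fun s =>
      mem r (x a).1 (x a).2.2 (c a) s && wi (x a).1 r v s) (UPoly.length hM).range ?_
    refine NPC.Poly.any (p := fun (p : α × ℕ) s =>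
      mem r (x p.1).1 (x p.1).2.2 (c p.1) s && wi (x p.1).1 r p.2 s)
      (UPoly.length (hM.comp hf)).range ?_
    have gf : NPC.Poly (fun q : (α × ℕ) × ℕ => q.1.1) := NPC.Poly.fst (NPC.Poly.fst NPC.Poly.id)
    have gv : NPC.Poly (fun q : (α × ℕ) × ℕ => q.1.2) := NPC.Poly.snd (NPC.Poly.fst NPC.Poly.id)
    have gs : NPC.Poly (fun q : (α × ℕ) × ℕ => q.2) := NPC.Poly.snd NPC.Poly.id
    exact NPC.Poly.and (poly_mem h r (hM.comp gf) (hX.comp gf) (hc.comp gf) gs)
      (h.1 r _ _ _ _ (hM.comp gf) gv gs)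

end PA

open PA in
theorem palg_ok (h : S_PWI) : S_PALG := by
  intro r
  have hx : NPC.Poly (fun y : Inst × List Unit => y.1) := NPC.Poly.fst NPC.Poly.id
  have hp : NPC.Poly (fun y : Inst × List Unit => y.2) := NPC.Poly.snd NPC.Poly.id
  unfold alg
  refine NPC.Poly.any (p := fun (y : Inst × List Unit) c => chk r y.1 c)
    (NPC.Poly.range_length hp) ?_
  exact poly_chk h r (hx.comp (NPC.Poly.fst NPC.Poly.id)) (NPC.Poly.snd NPC.Poly.id)

end Pool.Agent.R550.RD
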