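import Pool.Agent.R550.RD.Stm

/-! RD-PATH: a path meets `X`, has length `0`, or stays outside `X`. -/

namespace Pool.Agent.R550.RD

open Pool.Agent.H633R2 Pool.Agent.NPC

namespace PathAux

theorem adj_symm (M : List (List Bool)) (i j : ℕ) (h : adj M i j = true) : adj M j i = true := by
  simp only [adj, Bool.and_eq_true, Bool.not_eq_true', decide_eq_false_iff_not,
    Bool.or_eq_true] at h ⊢
  exact ⟨fun e => h.1 e.symm, h.2.symm⟩

theorem inX_iff (X : List ℕ) (v : ℕ) : inX X v = true ↔ v ∈ X := by
  simp [inX]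

theorem wi_zero (M : List (List Bool)) (i j : ℕ) : wi M 0 i j = true ↔ i = j := by
  simp [wi]

theorem wi_succ (M : List (List Bool)) (t i j : ℕ) : wi M (t + 1) i j = true ↔
    i = j ∨ ∃ w, w < M.length ∧ adj M i w = true ∧ wi M t w j = true := by
  simp only [wi, Bool.or_eq_true, decide_eq_true_eq, List.any_eq_true, List.mem_range,
    Bool.and_eq_true]

theorem fl_of (M : List (List Bool)) (X : List ℕ) (v w : ℕ) (hv : v ∉ X) (hw : w ∉ X)
    (hwl : w < M.length) (h : adj M v w = true) : fl M X v = true := by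
  have h1 : inX X v = false := by
    rw [← Bool.not_eq_true, inX_iff]; exact hv
  have h2 : inX X w = false := by
    rw [← Bool.not_eq_true, inX_iff]; exact hw
  simp only [fl, h1, Bool.not_false, Bool.true_and, List.any_eq_true, List.mem_range,
    Bool.and_eq_true, Bool.not_eq_true']
  exact ⟨w, hwl, h2, h⟩

end PathAux

open PathAux in
theorem path_ok : S_PATH := by
  intro M X t
  induction t with
  | zero =>
    intro v s _ _ h
    exact Or.inr (Or.inl ((wi_zero M v s).1 h))
  | succ t ih =>
    intro v s hs hv h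
    rcases (wi_succ M t v s).1 h with h0 | ⟨w, hw, hadj, hws⟩
    · exact Or.inr (Or.inl h0)
    · by_cases hvX : v ∈ X
      · exact Or.inl ⟨v, hvX, hv, 0, t + 1, by omega, (wi_zero M v v).2 rfl, h⟩
      · by_cases hwX : w ∈ X
        · refine Or.inl ⟨w, hwX, hw, 1, t, by omega, ?_, hws⟩
          exact (wi_succ M 0 v w).2 (Or.inr ⟨w, hw, hadj, (wi_zero M w w).2 rfl⟩)
        · have hfv : fl M X v = true := fl_of M X v w hvX hwX hw hadj
          have hfw : fl M X w = true := fl_of M X w v hwX hvX hv (adj_symm M v w hadj)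
          rcases ih w s hs hw hws with ⟨y, hy, hyl, a, b, hab, h1, h2⟩ | h1 | ⟨h1, h2⟩
          · refine Or.inl ⟨y, hy, hyl, a + 1, b, by omega, ?_, h2⟩
            exact (wi_succ M a v y).2 (Or.inr ⟨w, hw, hadj, h1⟩)
          · subst h1
            exact Or.inr (Or.inr ⟨hfv, hfw⟩)
          · exact Or.inr (Or.inr ⟨hfv, h2⟩)

end Pool.Agent.R550.RD
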