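import Pool.Agent.R550.RD.Stm
import Pool.Agent.R550.CR.Poly
import Pool.Agent.H671R2.PolyAuto

/-!
# The reduction is computable in polynomial time
-/

namespace Pool.Agent.R550.RD

open Pool.Agent.NPC Pool.Agent.H633R2

namespace PRED

abbrev X := List (List Bool) × ℕ

theorem un : UPoly (fun x : X => x.1.length) := UPoly.length (NPC.Poly.fst NPC.Poly.id)

theorem uk : UPoly (fun x : X => min x.2 x.1.length) :=
  UPoly.of_le (n := fun x : X => x.1.length)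
    (NPC.Poly.min (NPC.Poly.snd NPC.Poly.id) (NPC.Poly.length (NPC.Poly.fst NPC.Poly.id)))
    un (fun x => min_le_right _ _)

theorem unv : UPoly (fun x : X => nv x.1.length (min x.2 x.1.length)) := by
  unfold nv
  exact UPoly.add (UPoly.add (UPoly.mul (UPoly.const 2) un) (UPoly.mul (UPoly.const 2) uk))
    (UPoly.mul uk un)

variable {α : Type} [TEnc α]

theorem poly_cd {n k i : α → ℕ} (hn : NPC.Poly n) (hk : NPC.Poly k) (hi : NPC.Poly i) :
    NPC.Poly (fun a => cd (n a) (k a) (i a)) := by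
  unfold cd
  have h2n : NPC.Poly (fun a => 2 * n a) := NPC.Poly.mul (NPC.Poly.const 2) hn
  have h2k : NPC.Poly (fun a => 2 * k a) := NPC.Poly.mul (NPC.Poly.const 2) hk
  have h3 : NPC.Poly (fun a => 2 * n a + k a) := NPC.Poly.add h2n hk
  have h4 : NPC.Poly (fun a => 2 * n a + 2 * k a) := NPC.Poly.add h2n h2k
  refine NPC.Poly.ite (NPC.Poly.decide_lt hi hn)
    (NPC.Poly.pair (NPC.Poly.const 0) (NPC.Poly.pair (NPC.Poly.const 0) hi)) ?_
  refine NPC.Poly.ite (NPC.Poly.decide_lt hi h2n)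
    (NPC.Poly.pair (NPC.Poly.const 1) (NPC.Poly.pair (NPC.Poly.const 0) (NPC.Poly.sub hi hn))) ?_
  refine NPC.Poly.ite (NPC.Poly.decide_lt hi h3)
    (NPC.Poly.pair (NPC.Poly.const 2) (NPC.Poly.pair (NPC.Poly.sub hi h2n) (NPC.Poly.const 0))) ?_
  refine NPC.Poly.ite (NPC.Poly.decide_lt hi h4)
    (NPC.Poly.pair (NPC.Poly.const 3) (NPC.Poly.pair (NPC.Poly.sub hi h3) (NPC.Poly.const 0))) ?_
  exact NPC.Poly.pair (NPC.Poly.const 4) (NPC.Poly.pair (NPC.Poly.div (NPC.Poly.sub hi h4) hn)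
    (NPC.Poly.mod (NPC.Poly.sub hi h4) hn))

theorem poly_ed {M : α → List (List Bool)} {p q : α → ℕ × ℕ × ℕ} (hM : NPC.Poly M)
    (hp : NPC.Poly p) (hq : NPC.Poly q) : NPC.Poly (fun a => ed (M a) (p a) (q a)) := by
  unfold ed
  have p1 : NPC.Poly (fun a => (p a).1) := NPC.Poly.fst hp
  have q1 : NPC.Poly (fun a => (q a).1) := NPC.Poly.fst hq
  have p2 : NPC.Poly (fun a => (p a).2.1) := NPC.Poly.fst (NPC.Poly.snd hp)
  have q2 : NPC.Poly (fun a => (q a).2.1) := NPC.Poly.fst (NPC.Poly.snd hq)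
  have p3 : NPC.Poly (fun a => (p a).2.2) := NPC.Poly.snd (NPC.Poly.snd hp)
  have q3 : NPC.Poly (fun a => (q a).2.2) := NPC.Poly.snd (NPC.Poly.snd hq)
  have e : ∀ {u v : α → ℕ}, NPC.Poly u → NPC.Poly v → NPC.Poly (fun a => decide (u a = v a)) :=
    fun hu hv => NPC.Poly.decide_eq hu hv
  have c : ∀ n : ℕ, NPC.Poly (fun _ : α => n) := fun n => NPC.Poly.const n
  refine NPC.Poly.or (NPC.Poly.or (NPC.Poly.or (NPC.Poly.or ?_ ?_) ?_) ?_) ?_
  · exact NPC.Poly.and (e p1 (c 0)) (e q1 (c 0))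
  · exact NPC.Poly.and (NPC.Poly.and (e p1 (c 0)) (e q1 (c 1)))
      (NPC.Poly.or (e p3 q3) (NPC.Poly.or (CRev.poly_entry hM p3 q3) (CRev.poly_entry hM q3 p3)))
  · exact NPC.Poly.and (NPC.Poly.and (e p1 (c 0)) (e q1 (c 4))) (e p3 q3)
  · exact NPC.Poly.and (NPC.Poly.and (e p1 (c 2)) (e q1 (c 3))) (e p2 q2)
  · exact NPC.Poly.and (NPC.Poly.and (e p1 (c 2)) (e q1 (c 4))) (e p2 q2)

end PRED

open PRED in
theorem pred_ok : S_PRED := by
  unfold S_PRED red red'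
  have hfst : NPC.Poly (fun p : X × ℕ × ℕ => p.1) := NPC.Poly.fst NPC.Poly.id
  have hM : NPC.Poly (fun p : X × ℕ × ℕ => p.1.1) := NPC.Poly.fst hfst
  have hn : NPC.Poly (fun p : X × ℕ × ℕ => p.1.1.length) := NPC.Poly.length hM
  have hk : NPC.Poly (fun p : X × ℕ × ℕ => min p.1.2 p.1.1.length) :=
    NPC.Poly.min (NPC.Poly.snd hfst) hn
  have hi : NPC.Poly (fun p : X × ℕ × ℕ => p.2.1) := NPC.Poly.fst (NPC.Poly.snd NPC.Poly.id)
  have hj : NPC.Poly (fun p : X × ℕ × ℕ => p.2.2) := NPC.Poly.snd (NPC.Poly.snd NPC.Poly.id)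
  refine NPC.Poly.pair ?_ (NPC.Poly.pair uk.toPoly ?_)
  · exact CRev.poly_matrix (n := fun x : X => nv x.1.length (min x.2 x.1.length))
      (f := fun x i j => ed x.1 (cd x.1.length (min x.2 x.1.length) i)
        (cd x.1.length (min x.2 x.1.length) j)) unv
      (poly_ed hM (poly_cd hn hk hi) (poly_cd hn hk hj))
  · refine NPC.Poly.map (F := fun (x : X) j => 2 * x.1.length + j)
      (UPoly.mul (UPoly.const 2) uk).range ?_
    exact NPC.Poly.add (NPC.Poly.mul (NPC.Poly.const 2)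
      (NPC.Poly.length (NPC.Poly.fst (NPC.Poly.fst NPC.Poly.id)))) (NPC.Poly.snd NPC.Poly.id)

end Pool.Agent.R550.RD
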