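import Pool.Agent.R550.RD.Stm
import Pool.Agent.R550.CR.Poly

/-!
RD-PWI: polynomial time for `wi`, `iso`, `fl`, `tr`.
-/

set_option autoImplicit false

namespace Pool.Agent.R550.RD

open Pool.Agent.H633R2 Pool.Agent.NPC

namespace Pwi

theorem poly_adj {α : Type} [TEnc α] {M : α → List (List Bool)} {i j : α → ℕ}
    (hM : NPC.Poly M) (hi : NPC.Poly i) (hj : NPC.Poly j) :
    NPC.Poly (fun a => adj (M a) (i a) (j a)) := by
  unfold adj
  exact NPC.Poly.and (NPC.Poly.not (NPC.Poly.decide_eq hi hj))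
    (NPC.Poly.or (CRev.poly_entry hM hi hj) (CRev.poly_entry hM hj hi))

theorem poly_wi (r : ℕ) : ∀ {α : Type} [TEnc α] {M : α → List (List Bool)} {i j : α → ℕ},
    NPC.Poly M → NPC.Poly i → NPC.Poly j → NPC.Poly (fun a => wi (M a) r (i a) (j a)) := by
  induction r with
  | zero =>
    intro α _ M i j hM hi hj
    exact NPC.Poly.decide_eq hi hj
  | succ t ih =>
    intro α _ M i j hM hi hj
    refine NPC.Poly.or (NPC.Poly.decide_eq hi hj) ?_
    refine NPC.Poly.any (p := fun a w => adj (M a) (i a) w && wi (M a) t w (j a))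
      (UPoly.length hM).range ?_
    have hM1 : NPC.Poly (fun p : α × ℕ => M p.1) := hM.comp (NPC.Poly.fst NPC.Poly.id)
    have hi1 : NPC.Poly (fun p : α × ℕ => i p.1) := hi.comp (NPC.Poly.fst NPC.Poly.id)
    have hj1 : NPC.Poly (fun p : α × ℕ => j p.1) := hj.comp (NPC.Poly.fst NPC.Poly.id)
    have hw : NPC.Poly (fun p : α × ℕ => p.2) := NPC.Poly.snd NPC.Poly.id
    exact NPC.Poly.and (poly_adj hM1 hi1 hw) (ih hM1 hw hj1)

theorem poly_iso {α : Type} [TEnc α] {M : α → List (List Bool)} {i : α → ℕ}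
    (hM : NPC.Poly M) (hi : NPC.Poly i) : NPC.Poly (fun a => iso (M a) (i a)) := by
  unfold iso
  refine NPC.Poly.all (p := fun a w => !adj (M a) (i a) w) (UPoly.length hM).range ?_
  have hM1 : NPC.Poly (fun p : α × ℕ => M p.1) := hM.comp (NPC.Poly.fst NPC.Poly.id)
  have hi1 : NPC.Poly (fun p : α × ℕ => i p.1) := hi.comp (NPC.Poly.fst NPC.Poly.id)
  have hw : NPC.Poly (fun p : α × ℕ => p.2) := NPC.Poly.snd NPC.Poly.id
  exact NPC.Poly.not (poly_adj hM1 hi1 hw)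

theorem poly_inX {α : Type} [TEnc α] {X : α → List ℕ} {i : α → ℕ}
    (hX : NPC.Poly X) (hi : NPC.Poly i) : NPC.Poly (fun a => inX (X a) (i a)) := by
  unfold inX
  refine NPC.Poly.any (p := fun a y => decide (y = i a)) hX ?_
  have hi1 : NPC.Poly (fun p : α × ℕ => i p.1) := hi.comp (NPC.Poly.fst NPC.Poly.id)
  have hw : NPC.Poly (fun p : α × ℕ => p.2) := NPC.Poly.snd NPC.Poly.id
  exact NPC.Poly.decide_eq hw hi1

theorem poly_fl {α : Type} [TEnc α] {M : α → List (List Bool)} {X : α → List ℕ} {i : α → ℕ}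
    (hM : NPC.Poly M) (hX : NPC.Poly X) (hi : NPC.Poly i) :
    NPC.Poly (fun a => fl (M a) (X a) (i a)) := by
  unfold fl
  refine NPC.Poly.and (NPC.Poly.not (poly_inX hX hi)) ?_
  refine NPC.Poly.any (p := fun a w => !inX (X a) w && adj (M a) (i a) w)
    (UPoly.length hM).range ?_
  have hM1 : NPC.Poly (fun p : α × ℕ => M p.1) := hM.comp (NPC.Poly.fst NPC.Poly.id)
  have hX1 : NPC.Poly (fun p : α × ℕ => X p.1) := hX.comp (NPC.Poly.fst NPC.Poly.id)
  have hi1 : NPC.Poly (fun p : α × ℕ => i p.1) := hi.comp (NPC.Poly.fst NPC.Poly.id)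
  have hw : NPC.Poly (fun p : α × ℕ => p.2) := NPC.Poly.snd NPC.Poly.id
  exact NPC.Poly.and (NPC.Poly.not (poly_inX hX1 hw)) (poly_adj hM1 hi1 hw)

theorem poly_wl (r : ℕ) : ∀ {α : Type} [TEnc α] {M : α → List (List Bool)} {i j : α → ℕ},
    NPC.Poly M → NPC.Poly i → NPC.Poly j → NPC.Poly (fun a => wl (M a) r (i a) (j a)) := by
  induction r with
  | zero =>
    intro α _ M i j hM hi hj
    exact NPC.Poly.cons (poly_wi 0 hM hi hj) (NPC.Poly.const [])
  | succ t ih =>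
    intro α _ M i j hM hi hj
    exact NPC.Poly.cons (poly_wi (t + 1) hM hi hj) (ih hM hi hj)

theorem poly_tr (r : ℕ) {α : Type} [TEnc α] {M : α → List (List Bool)} {X : α → List ℕ}
    {i : α → ℕ} (hM : NPC.Poly M) (hX : NPC.Poly X) (hi : NPC.Poly i) :
    NPC.Poly (fun a => tr r (M a) (X a) (i a)) := by
  unfold tr
  refine NPC.Poly.cons (poly_fl hM hX hi) ?_
  refine NPC.Poly.flatMap (F := fun a y => wl (M a) r (i a) y) hX ?_
  have hM1 : NPC.Poly (fun p : α × ℕ => M p.1) := hM.comp (NPC.Poly.fst NPC.Poly.id)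
  have hi1 : NPC.Poly (fun p : α × ℕ => i p.1) := hi.comp (NPC.Poly.fst NPC.Poly.id)
  have hw : NPC.Poly (fun p : α × ℕ => p.2) := NPC.Poly.snd NPC.Poly.id
  exact poly_wl r hM1 hi1 hw

end Pwi

theorem pwi_ok : S_PWI :=
  ⟨fun r _ _ _ _ _ hM hi hj => Pwi.poly_wi r hM hi hj, fun _ _ _ _ hM hi => Pwi.poly_iso hM hi,
    fun r _ _ _ _ _ hM hX hi => Pwi.poly_tr r hM hX hi⟩

end Pool.Agent.R550.RD
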