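import Pool.Agent.R550.RD.Stm

/-!
# RD-SOUND: soundness of the algorithm
-/

namespace Pool.Agent.R550.RD

open Pool.Agent.H633R2 Pool.Agent.NPC

theorem sound_ok (hW : S_WI) : S_SOUND := by
  classical
  intro r x c h
  unfold chk at h
  rw [Bool.and_eq_true, decide_eq_true_eq, List.all_eq_true] at h
  obtain ⟨h1, h2⟩ := h
  refine ⟨Finset.univ.filter (fun v : Fin x.1.length => mem r x.1 x.2.2 c v = true), ?_, ?_⟩
  · refine le_trans ?_ h1
    have h3 : (Finset.univ.filter (fun v : Fin x.1.length => mem r x.1 x.2.2 c v = true)).map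
        Fin.valEmbedding ⊆ ((List.range x.1.length).filter
          fun v => mem r x.1 x.2.2 c v).toFinset := by
      intro v hv
      rw [Finset.mem_map] at hv
      obtain ⟨u, hu, rfl⟩ := hv
      rw [Finset.mem_filter] at hu
      rw [List.mem_toFinset, List.mem_filter]
      exact ⟨List.mem_range.2 u.2, hu.2⟩
    have h4 := Finset.card_le_card h3
    rw [Finset.card_map] at h4
    exact le_trans h4 (List.toFinset_card_le _)
  · intro v
    have h5 := h2 v.1 (List.mem_range.2 v.2)
    rw [List.any_eq_true] at h5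
    obtain ⟨s, hs, hs2⟩ := h5
    rw [List.mem_range] at hs
    rw [Bool.and_eq_true] at hs2
    refine ⟨⟨s, hs⟩, ?_, ?_⟩
    · rw [Finset.mem_coe, Finset.mem_filter]
      exact ⟨Finset.mem_univ _, hs2.1⟩
    · exact (hW x.1 r v ⟨s, hs⟩).1 hs2.2

end Pool.Agent.R550.RD
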