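import Pool.Agent.R550.RD.Defs
import Pool.Agent.H633R2.FptPad

/-!
# `r`-Dominating Set parameterized by the size of a split modulator: statements of the pieces
-/

namespace Pool.Agent.R550.RD

open Pool.Agent.H633R2 Pool.Agent.NPC

/-- RD-WI -/
def S_WI : Prop := ∀ (M : List (List Bool)) (t : ℕ) (i j : Fin M.length),
  wi M t i j = true ↔ (graphOf M).edist i j ≤ (t : ℕ∞)

/-- RD-TR: same trace means same flag and same truncated distances to `X` -/
def S_TR : Prop := ∀ (r : ℕ) (M : List (List Bool)) (X : List ℕ),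
  (∀ v, (tr r M X v).length = tl r X) ∧
  (∀ v w, tr r M X v = tr r M X w ↔ (fl M X v = fl M X w ∧
    ∀ y ∈ X, ∀ t ≤ r, wi M t v y = wi M t w y)) ∧
  ∀ f : ℕ → ℕ, ∃ c, c < 2 ^ ((X.length + 1) * tl r X) ∧
    ∀ m ≤ X.length, blk r X c m = tr r M X (f m)

/-- RD-PATH: a path from `v` to `s` meets `X`, or has length `0`, or lies outside `X` -/
def S_PATH : Prop := ∀ (M : List (List Bool)) (X : List ℕ) (t v s : ℕ), s < M.length →
  v < M.length → wi M t v s = true →
    (∃ y ∈ X, y < M.length ∧ ∃ a b, a + b ≤ t ∧ wi M a v y = true ∧ wi M b y s = true) ∨ v = s ∨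
      (fl M X v = true ∧ fl M X s = true)

/-- RD-DIST: two flagged vertices have distance at most 3; triangle inequality; symmetry -/
def S_DIST : Prop :=
  (∀ x : Inst, Valid x → ∀ v s, v < x.1.length → s < x.1.length →
    fl x.1 x.2.2 v = true → fl x.1 x.2.2 s = true → wi x.1 3 v s = true) ∧
  (∀ (M : List (List Bool)) (v w s a b : ℕ), v < M.length → w < M.length → s < M.length →
    wi M a v w = true → wi M b w s = true → wi M (a + b) v s = true) ∧
  (∀ (M : List (List Bool)) (v s a : ℕ), v < M.length → s < M.length →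
    wi M a v s = true → wi M a s v = true) ∧
  (∀ (M : List (List Bool)) (v s a b : ℕ), a ≤ b → v < M.length → s < M.length →
    wi M a v s = true → wi M b v s = true)

/-- RD-COMP: completeness of the algorithm (some `c` codes a small `r`-dominating set) -/
def S_COMP : Prop := ∀ r, 3 ≤ r → ∀ x : Inst, Valid x → HasRDom r x →
  ∃ c, c < 2 ^ ((x.2.2.length + 1) * tl r x.2.2) ∧ chk r x c = true

/-- RD-SOUND: soundness of the algorithm -/
def S_SOUND : Prop := ∀ r, ∀ x : Inst, ∀ c, chk r x c = true → HasRDom r x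

/-- RD-PWI: polynomial time for `wi`, `iso`, `fl`, `tr` -/
def S_PWI : Prop :=
  (∀ (r : ℕ) (α : Type) [TEnc α] (M : α → List (List Bool)) (i j : α → ℕ), NPC.Poly M →
    NPC.Poly i → NPC.Poly j → NPC.Poly (fun a => wi (M a) r (i a) (j a))) ∧
  (∀ (α : Type) [TEnc α] (M : α → List (List Bool)) (i : α → ℕ), NPC.Poly M →
    NPC.Poly i → NPC.Poly (fun a => iso (M a) (i a))) ∧
  (∀ (r : ℕ) (α : Type) [TEnc α] (M : α → List (List Bool)) (X : α → List ℕ) (i : α → ℕ),
    NPC.Poly M → NPC.Poly X → NPC.Poly i → NPC.Poly (fun a => tr r (M a) (X a) (i a)))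

/-- RD-PALG: polynomial time for `alg` in the size of the padded input -/
def S_PALG : Prop := ∀ r, NPC.Poly (fun y : Inst × List Unit => alg r y.1 y.2)

/-- RD-FPT -/
def S_FPT : Prop := ∀ r, 3 ≤ r → ∃ d : Inst → Bool, FptTime par d ∧
  ∀ x, Valid x → (d x = true ↔ HasRDom r x)

/-- RD-VAL: the new instance is valid -/
def S_VAL : Prop := ∀ (M : List (List Bool)) (k : ℕ), Valid (red' M k)

/-- RD-IF: a dominating set of `H` gives a 2-dominating set -/
def S_IF : Prop := ∀ (M : List (List Bool)) (k : ℕ), k ≤ M.length →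
  HasDomSet (M, k) → HasRDom 2 (red' M k)

/-- RD-ONLY: a 2-dominating set gives a dominating set of `H` -/
def S_ONLY : Prop := ∀ (M : List (List Bool)) (k : ℕ), k ≤ M.length →
  HasRDom 2 (red' M k) → HasDomSet (M, k)

/-- RD-PRED: the reduction is computable in polynomial time -/
def S_PRED : Prop := NPC.Poly red

/-- RD-HARD -/
def S_HARD : Prop := W2Hard par (fun x => Valid x ∧ HasRDom 2 x)

end Pool.Agent.R550.RD
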