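import Pool.Agent.R550.RD.Stm

/-!
RD-TR: traces and blocks of bits.
-/

namespace Pool.Agent.R550.RD

namespace TrAux

lemma wl_len (M : List (List Bool)) (r v y : ℕ) : (wl M r v y).length = r + 1 := by
  induction r with
  | zero => rfl
  | succ t ih => rw [wl, List.length_cons, ih]

lemma wl_eq (M : List (List Bool)) (r v w y : ℕ) :
    wl M r v y = wl M r w y ↔ ∀ t ≤ r, wi M t v y = wi M t w y := by
  induction r with
  | zero =>
    rw [wl, wl]
    constructor
    · intro h t ht
      obtain rfl : t = 0 := by omega
      exact (List.cons.inj h).1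
    · intro h
      rw [h 0 le_rfl]
  | succ r ih =>
    rw [wl, wl, List.cons.injEq, ih]
    constructor
    · rintro ⟨h1, h2⟩ t ht
      rcases Nat.lt_or_ge t (r + 1) with h | h
      · exact h2 t (by omega)
      · obtain rfl : t = r + 1 := by omega
        exact h1
    · intro h
      exact ⟨h _ le_rfl, fun t ht => h t (by omega)⟩

lemma fm_len (M : List (List Bool)) (r v : ℕ) (X : List ℕ) :
    (X.flatMap fun y => wl M r v y).length = X.length * (r + 1) := by
  induction X with
  | nil => simp
  | cons a X ih =>
    rw [List.flatMap_cons, List.length_append, ih, wl_len, List.length_cons]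
    ring

lemma fm_eq (M : List (List Bool)) (r v w : ℕ) (X : List ℕ) :
    (X.flatMap fun y => wl M r v y) = (X.flatMap fun y => wl M r w y) ↔
      ∀ y ∈ X, ∀ t ≤ r, wi M t v y = wi M t w y := by
  induction X with
  | nil => simp
  | cons a X ih =>
    rw [List.flatMap_cons, List.flatMap_cons, List.forall_mem_cons, ← ih, ← wl_eq]
    constructor
    · intro h
      exact List.append_inj h (by rw [wl_len, wl_len])
    · rintro ⟨h1, h2⟩
      rw [h1, h2]

lemma tr_len (r : ℕ) (M : List (List Bool)) (X : List ℕ) (v : ℕ) :
    (tr r M X v).length = tl r X := by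
  rw [tr, List.length_cons, fm_len, tl]

end TrAux

open TrAux in
theorem tr_ok : S_TR := by
  intro r M X
  refine ⟨tr_len r M X, ?_, ?_⟩
  · intro v w
    rw [tr, tr, List.cons.injEq, fm_eq]
  · intro f
    have htl : 0 < tl r X := by
      rw [tl]
      omega
    let g : ℕ → Bool := fun b => (tr r M X (f (b / tl r X))).getD (b % tl r X) false
    refine ⟨Nat.ofBits (fun b : Fin ((X.length + 1) * tl r X) => g b), Nat.ofBits_lt_two_pow _, ?_⟩
    intro m hm
    apply List.ext_getElem
    · rw [tr_len, blk, List.length_map, List.length_range]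
    · intro b hb1 hb2
      have hb : b < tl r X := by rwa [tr_len] at hb2
      simp only [blk, List.getElem_map, List.getElem_range]
      have hlt : m * tl r X + b < (X.length + 1) * tl r X := by
        calc m * tl r X + b < m * tl r X + tl r X := by omega
          _ = (m + 1) * tl r X := by ring
          _ ≤ (X.length + 1) * tl r X := Nat.mul_le_mul_right _ (by omega)
      rw [Nat.testBit_ofBits_lt _ _ hlt]
      change (tr r M X (f ((m * tl r X + b) / tl r X))).getD ((m * tl r X + b) % tl r X) false = _
      have h1 : (m * tl r X + b) / tl r X = m := by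
        rw [mul_comm, Nat.mul_add_div htl, Nat.div_eq_of_lt hb, add_zero]
      have h2 : (m * tl r X + b) % tl r X = b := by
        rw [mul_comm, Nat.mul_add_mod, Nat.mod_eq_of_lt hb]
      rw [h1, h2, List.getD_eq_getElem _ _ hb2]

end Pool.Agent.R550.RD
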