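import Pool.Agent.R550.RD.Stm

/-!
# RD-VAL (helper657 for helper550): the new instance is valid
-/

namespace Pool.Agent.R550.RD

open Pool.Agent.H633R2 Pool.Agent.NPC

namespace Val

theorem len (M : List (List Bool)) (k : ℕ) : (red' M k).1.length = nv M.length k := by
  simp [red']

theorem entry_red (M : List (List Bool)) (k i j : ℕ) (hi : i < nv M.length k)
    (hj : j < nv M.length k) :
    entry (red' M k).1 i j = ed M (cd M.length k i) (cd M.length k j) := by
  simp [red', entry, hi, hj]

theorem mem_X (M : List (List Bool)) (k v : ℕ) :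
    v ∈ (red' M k).2.2 ↔ 2 * M.length ≤ v ∧ v < 2 * M.length + 2 * k := by
  simp only [red', List.mem_map, List.mem_range]
  constructor
  · rintro ⟨j, hj, rfl⟩
    omega
  · rintro ⟨h1, h2⟩
    exact ⟨v - 2 * M.length, by omega, by omega⟩

theorem cd_low {n k i : ℕ} (h : i < n) : (cd n k i).1 = 0 := by
  simp [cd, h]

theorem cd_ind {n k i : ℕ} (h : (n ≤ i ∧ i < 2 * n) ∨ 2 * n + 2 * k ≤ i) :
    (cd n k i).1 = 1 ∨ (cd n k i).1 = 4 := by
  unfold cd
  rcases h with ⟨h1, h2⟩ | h
  · left
    rw [if_neg (by omega), if_pos h2]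
  · by_cases h3 : i < 2 * n + k
    · omega
    · right
      rw [if_neg (by omega), if_neg (by omega), if_neg h3, if_neg (by omega)]

theorem ed_ind {M : List (List Bool)} {p q : ℕ × ℕ × ℕ} (h : p.1 = 1 ∨ p.1 = 4) :
    ed M p q = false := by
  unfold ed
  rcases h with h | h <;> simp [h]

theorem ed_clique {M : List (List Bool)} {p q : ℕ × ℕ × ℕ} (hp : p.1 = 0) (hq : q.1 = 0) :
    ed M p q = true := by
  simp [ed, hp, hq]

end Val

open Val in
theorem val_ok : S_VAL := by
  intro M k
  refine ⟨?_, ?_, ?_⟩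
  · simp only [red']
    exact List.nodup_range.map (fun a b h => by simpa using h)
  · intro v hv
    rw [len, nv]
    have := (mem_X M k v).1 hv
    omega
  · refine ⟨{v | (v : ℕ) < M.length},
      {v | (M.length ≤ (v : ℕ) ∧ (v : ℕ) < 2 * M.length) ∨ 2 * M.length + 2 * k ≤ (v : ℕ)},
      ?_, ?_, ?_, ?_⟩
    · ext v
      simp only [Set.mem_union, Set.mem_ofPred_eq, Set.mem_compl_iff, mem_X]
      omega
    · rw [Set.disjoint_left]
      intro v hv hv'
      simp only [Set.mem_ofPred_eq] at hv hv'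
      omega
    · intro u hu v hv huv
      refine ⟨huv, Or.inl ?_⟩
      rw [entry_red _ _ _ _ (len M k ▸ u.2) (len M k ▸ v.2)]
      exact ed_clique (cd_low hu) (cd_low hv)
    · intro u hu v hv huv hadj
      rcases hadj.2 with h | h
      · rw [entry_red _ _ _ _ (len M k ▸ u.2) (len M k ▸ v.2), ed_ind (cd_ind hu)] at h
        exact Bool.false_ne_true h
      · rw [entry_red _ _ _ _ (len M k ▸ v.2) (len M k ▸ u.2), ed_ind (cd_ind hv)] at h
        exact Bool.false_ne_true h

end Pool.Agent.R550.RD
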