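import Pool.Agent.R550.RD.Stm

/-!
# RD-WI: `wi` is the distance test
-/

namespace Pool.Agent.R550.RD

open Pool.Agent.H633R2 Pool.Agent.NPC

namespace WiAux

theorem walk_iff {V : Type} (G : SimpleGraph V) (i j : V) (t : ℕ) :
    (∃ p : G.Walk i j, p.length ≤ t) ↔ G.edist i j ≤ (t : ℕ∞) := by
  constructor
  · rintro ⟨p, hp⟩
    exact (SimpleGraph.edist_le p).trans (by exact_mod_cast hp)
  · intro h
    have hne : G.edist i j ≠ ⊤ := ne_top_of_le_ne_top (ENat.natCast_ne_top t) h
    obtain ⟨p, hp⟩ := SimpleGraph.exists_walk_of_edist_ne_top hne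
    rw [← hp] at h
    exact ⟨p, by exact_mod_cast h⟩

theorem adj_iff (M : List (List Bool)) (i w : Fin M.length) :
    adj M i w = true ↔ (graphOf M).Adj i w := by
  unfold adj
  rw [Bool.and_eq_true, Bool.not_eq_true', decide_eq_false_iff_not, Bool.or_eq_true]
  show (¬ (i : ℕ) = w ∧ (entry M i w = true ∨ entry M w i = true)) ↔
    (i ≠ w ∧ (entry M i w = true ∨ entry M w i = true))
  rw [ne_eq, Fin.ext_iff]

theorem wi_iff (M : List (List Bool)) (t : ℕ) (i j : Fin M.length) :
    wi M t i j = true ↔ ∃ p : (graphOf M).Walk i j, p.length ≤ t := by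
  induction t generalizing i with
  | zero =>
    unfold wi
    rw [decide_eq_true_iff]
    constructor
    · intro h
      have h' : i = j := Fin.ext h
      subst h'
      exact ⟨SimpleGraph.Walk.nil, le_rfl⟩
    · rintro ⟨p, hp⟩
      have := SimpleGraph.Walk.eq_of_length_eq_zero (Nat.le_zero.1 hp)
      rw [this]
  | succ t ih =>
    rw [wi, Bool.or_eq_true, decide_eq_true_iff, List.any_eq_true]
    constructor
    · rintro (h | ⟨w, hw, h⟩)
      · have h' : i = j := Fin.ext h
        subst h'
        exact ⟨SimpleGraph.Walk.nil, Nat.zero_le _⟩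
      · rw [List.mem_range] at hw
        rw [Bool.and_eq_true] at h
        obtain ⟨p, hp⟩ := (ih ⟨w, hw⟩).1 h.2
        have ha := (adj_iff M i ⟨w, hw⟩).1 h.1
        exact ⟨SimpleGraph.Walk.cons ha p, by
          rw [SimpleGraph.Walk.length_cons]
          omega⟩
    · rintro ⟨p, hp⟩
      cases p with
      | nil => exact Or.inl rfl
      | cons h p =>
        rename_i w
        refine Or.inr ⟨w, List.mem_range.2 w.2, ?_⟩
        rw [Bool.and_eq_true]
        rw [SimpleGraph.Walk.length_cons] at hp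
        exact ⟨(adj_iff M i w).2 h, (ih w).2 ⟨p, by omega⟩⟩

end WiAux

theorem wi_ok : S_WI := fun M t i j =>
  (WiAux.wi_iff M t i j).trans (WiAux.walk_iff (graphOf M) i j t)

end Pool.Agent.R550.RD
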